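import Pool.Agent.MP7badbe.Defs

/-!
# Basic facts on `ex` and the Turán density of `F_i`

The limit exists, `1 - π(F_i)` is at least the reciprocal of (about) the number of edges of `F_i`,
and a family meeting every copy of `F_i` bounds `1 - π(F_i)` from above.
-/

open Finset

namespace Pool.Agent.MP7badbe

theorem le_ex {n k i : ℕ} {H : Finset (Finset (Fin n))} (h1 : ∀ A ∈ H, A.card = k)
    (h2 : ¬ Contains H (FGraph k i)) : H.card ≤ ex n k i := by
  classical
  unfold ex
  refine Finset.le_sup (f := Finset.card) ?_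
  rw [mem_filter, mem_powerset]
  exact ⟨fun A hA => mem_powersetCard.mpr ⟨subset_univ _, h1 A hA⟩, h2⟩

theorem ex_le {n k i N : ℕ} (h : ∀ H : Finset (Finset (Fin n)), (∀ A ∈ H, A.card = k) →
    ¬ Contains H (FGraph k i) → H.card ≤ N) : ex n k i ≤ N := by
  classical
  unfold ex
  refine Finset.sup_le fun H hH => ?_
  rw [mem_filter, mem_powerset] at hH
  exact h H (fun A hA => (mem_powersetCard.mp (hH.1 hA)).2) hH.2

/-- averaging over the deletion of one vertex -/
theorem ex_succ (n k i : ℕ) (hk : k ≤ n + 1) : (n + 1 - k) * ex (n + 1) k i ≤ (n + 1) * ex n k i := by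
  classical
  by_cases hne : ∃ H : Finset (Finset (Fin (n + 1))), (∀ A ∈ H, A.card = k) ∧
      ¬ Contains H (FGraph k i) ∧ H.card = ex (n + 1) k i
  · obtain ⟨H, h1, h2, h3⟩ := hne
    rw [← h3]
    have key : ∀ v : Fin (n + 1), (H.filter (fun A => v ∉ A)).card ≤ ex n k i := by
      intro v
      set H' : Finset (Finset (Fin n)) := univ.filter (fun B => B.map v.succAboveEmb ∈ H) with hH'
      have e1 : (H.filter (fun A => v ∉ A)).card = H'.card := by
        symm
        refine Finset.card_bij (fun B _ => B.map v.succAboveEmb) ?_ ?_ ?_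
        · intro B hB
          rw [hH', mem_filter] at hB
          rw [mem_filter]
          refine ⟨hB.2, ?_⟩
          rw [mem_map]
          rintro ⟨x, -, hx⟩
          exact Fin.succAbove_ne v x hx
        · intro B _ B' _ hBB
          exact Finset.map_injective _ hBB
        · intro A hA
          rw [mem_filter] at hA
          have hAm : (univ.filter (fun x => v.succAboveEmb x ∈ A)).map v.succAboveEmb = A := by
            ext a
            simp only [mem_map, mem_filter, mem_univ, true_and]
            constructor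
            · rintro ⟨x, hx, rfl⟩; exact hx
            · intro ha
              have hav : a ≠ v := by rintro rfl; exact hA.2 ha
              obtain ⟨x, hx⟩ := Fin.exists_succAbove_eq hav
              exact ⟨x, by rw [Fin.succAboveEmb_apply, hx]; exact ha, by rw [Fin.succAboveEmb_apply, hx]⟩
          refine ⟨univ.filter (fun x => v.succAboveEmb x ∈ A), ?_, hAm⟩
          rw [hH', mem_filter]
          exact ⟨mem_univ _, by rw [hAm]; exact hA.1⟩
      rw [e1]
      apply le_ex
      · intro B hB
        rw [hH', mem_filter] at hB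
        have := h1 _ hB.2
        rwa [Finset.card_map] at this
      · rintro ⟨f, hf⟩
        apply h2
        refine ⟨f.trans v.succAboveEmb, fun A hA => ?_⟩
        have := hf A hA
        rw [hH', mem_filter] at this
        rw [← Finset.map_map]
        exact this.2
    have hs : ∑ v : Fin (n + 1), (H.filter (fun A => v ∉ A)).card = (n + 1 - k) * H.card := by
      simp_rw [Finset.card_filter]
      rw [Finset.sum_comm]
      have : ∀ A ∈ H, ∑ v : Fin (n + 1), (if v ∉ A then 1 else 0) = n + 1 - k := by
        intro A hA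
        rw [← Finset.card_filter]
        have : (univ.filter (fun v => v ∉ A)) = Aᶜ := by ext v; simp
        rw [this, Finset.card_compl, h1 A hA, Fintype.card_fin]
      rw [Finset.sum_congr rfl this, Finset.sum_const, smul_eq_mul, mul_comm]
    rw [← hs]
    calc ∑ v : Fin (n + 1), (H.filter (fun A => v ∉ A)).card ≤ ∑ v : Fin (n + 1), ex n k i :=
          Finset.sum_le_sum fun v _ => key v
      _ = (n + 1) * ex n k i := by simp
  · -- no admissible family at all: then `ex (n+1) k i = 0`
    have : ex (n + 1) k i = 0 := by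
      by_contra h0
      apply hne
      unfold ex at h0 ⊢
      have hnon : ((((univ : Finset (Fin (n + 1))).powersetCard k).powerset).filter
          (fun H => ¬ Contains H (FGraph k i))).Nonempty := by
        by_contra hcon
        rw [Finset.not_nonempty_iff_eq_empty] at hcon
        rw [hcon] at h0
        simp at h0
      obtain ⟨H, hH, he⟩ := Finset.exists_mem_eq_sup _ hnon Finset.card
      rw [mem_filter, mem_powerset] at hH
      exact ⟨H, fun A hA => (mem_powersetCard.mp (hH.1 hA)).2, hH.2, he.symm⟩
    rw [this]; simp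

theorem ratio_succ (n k i : ℕ) (hk : k ≤ n) :
    (ex (n + 1) k i : ℝ) / ((n + 1).choose k : ℝ) ≤ (ex n k i : ℝ) / (n.choose k : ℝ) := by
  have h1 := ex_succ n k i (by omega)
  have h2 : (n + 1 - k) * (n + 1).choose k = (n + 1) * n.choose k := by
    have h3 := Nat.choose_mul_succ_eq n k
    rw [mul_comm, ← h3, mul_comm]
  have p1 : 0 < n.choose k := Nat.choose_pos hk
  have p2 : 0 < (n + 1).choose k := Nat.choose_pos (by omega)
  have p3 : 0 < n + 1 - k := by omega
  rw [div_le_div_iff₀ (by exact_mod_cast p2) (by exact_mod_cast p1)]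
  have h4 : ex (n + 1) k i * n.choose k ≤ ex n k i * (n + 1).choose k := by
    have : (n + 1 - k) * (ex (n + 1) k i * n.choose k) ≤ (n + 1 - k) * (ex n k i * (n + 1).choose k) := by
      calc (n + 1 - k) * (ex (n + 1) k i * n.choose k)
          = ((n + 1 - k) * ex (n + 1) k i) * n.choose k := by ring
        _ ≤ ((n + 1) * ex n k i) * n.choose k := Nat.mul_le_mul_right _ h1
        _ = ex n k i * ((n + 1) * n.choose k) := by ring
        _ = ex n k i * ((n + 1 - k) * (n + 1).choose k) := by rw [h2]
        _ = (n + 1 - k) * (ex n k i * (n + 1).choose k) := by ring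
    exact Nat.le_of_mul_le_mul_left this p3
  exact_mod_cast h4

theorem ratio_antitone (k i : ℕ) :
    Antitone (fun n : ℕ => (ex (n + k) k i : ℝ) / ((n + k).choose k : ℝ)) := by
  refine antitone_nat_of_succ_le fun n => ?_
  have := ratio_succ (n + k) k i (by omega)
  have e : n + 1 + k = n + k + 1 := by ring
  rw [e]; exact this

theorem ratio_tendsto (k i : ℕ) :
    Filter.Tendsto (fun n : ℕ => (ex n k i : ℝ) / (n.choose k : ℝ)) Filter.atTop
      (nhds (turanDensity k i)) := by
  have hb : BddBelow (Set.range (fun n : ℕ => (ex (n + k) k i : ℝ) / ((n + k).choose k : ℝ))) := by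
    refine ⟨0, ?_⟩
    rintro x ⟨n, rfl⟩
    positivity
  have h1 := tendsto_atTop_ciInf (ratio_antitone k i) hb
  have h2 : Filter.Tendsto (fun n : ℕ => (ex n k i : ℝ) / (n.choose k : ℝ)) Filter.atTop
      (nhds (⨅ n : ℕ, (ex (n + k) k i : ℝ) / ((n + k).choose k : ℝ))) :=
    (Filter.tendsto_add_atTop_iff_nat k).mp h1
  unfold turanDensity
  rw [h2.limUnder_eq]
  exact h2

theorem density_le (n k i : ℕ) (hk : k ≤ n) :
    turanDensity k i ≤ (ex n k i : ℝ) / (n.choose k : ℝ) := by
  obtain ⟨d, rfl⟩ := Nat.exists_eq_add_of_le' hk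
  refine le_of_tendsto (ratio_tendsto k i) ?_
  rw [Filter.eventually_atTop]
  refine ⟨d + k, fun N hN => ?_⟩
  obtain ⟨t, rfl⟩ := Nat.exists_eq_add_of_le' (show k ≤ N by omega)
  exact ratio_antitone k i (by omega : d ≤ t)

theorem le_density {k i : ℕ} {x : ℝ} (h : ∀ n : ℕ, x * (n.choose k : ℝ) ≤ (ex n k i : ℝ)) :
    x ≤ turanDensity k i := by
  refine ge_of_tendsto (ratio_tendsto k i) ?_
  rw [Filter.eventually_atTop]
  refine ⟨k, fun n hn => ?_⟩
  have : (0 : ℝ) < (n.choose k : ℝ) := by exact_mod_cast Nat.choose_pos hn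
  rw [le_div_iff₀ this]
  exact h n

/-- if `H` has no copy of `F_i`, each pair `(S,T)` has a missing edge -/
theorem missing {n k i : ℕ} {H : Finset (Finset (Fin n))} (h : ¬ Contains H (FGraph k i))
    {S T : Finset (Fin n)} (hS : S.card = i) (hT : T.card = k - 1) (hST : Disjoint S T) :
    ∃ A : Finset (Fin n), A.card = k ∧ A ⊆ S ∪ T ∧ (S ⊆ A ∨ T ⊆ A) ∧ A ∉ H := by
  let f : Fin i ⊕ Fin (k - 1) → Fin n := Sum.elim (S.orderEmbOfFin hS) (T.orderEmbOfFin hT)
  have hf : Function.Injective f := by
    rintro (a | a) (b | b) hab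
    · exact congrArg Sum.inl ((S.orderEmbOfFin hS).injective hab)
    · exfalso
      have h1 : S.orderEmbOfFin hS a ∈ S := Finset.orderEmbOfFin_mem _ _ _
      have h2 : T.orderEmbOfFin hT b ∈ T := Finset.orderEmbOfFin_mem _ _ _
      have h3 : S.orderEmbOfFin hS a = T.orderEmbOfFin hT b := hab
      rw [h3] at h1
      exact Finset.disjoint_left.mp hST h1 h2
    · exfalso
      have h1 : S.orderEmbOfFin hS b ∈ S := Finset.orderEmbOfFin_mem _ _ _
      have h2 : T.orderEmbOfFin hT a ∈ T := Finset.orderEmbOfFin_mem _ _ _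
      have h3 : T.orderEmbOfFin hT a = S.orderEmbOfFin hS b := hab
      rw [h3] at h2
      exact Finset.disjoint_left.mp hST h1 h2
    · exact congrArg Sum.inr ((T.orderEmbOfFin hT).injective hab)
  unfold Contains at h
  push Not at h
  obtain ⟨A, hA, hAH⟩ := h ⟨f, hf⟩
  rw [FGraph, mem_filter] at hA
  obtain ⟨-, hAc, hA2⟩ := hA
  refine ⟨A.map ⟨f, hf⟩, by rw [Finset.card_map]; exact hAc, ?_, ?_, hAH⟩
  · intro x hx
    rw [mem_map] at hx
    obtain ⟨y, -, rfl⟩ := hx
    rw [mem_union]
    rcases y with y | y
    · exact Or.inl (Finset.orderEmbOfFin_mem S hS y)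
    · exact Or.inr (Finset.orderEmbOfFin_mem T hT y)
  · rcases hA2 with h1 | h1
    · left
      intro x hx
      have : x ∈ Set.range (S.orderEmbOfFin hS) := by rw [Finset.range_orderEmbOfFin]; exact hx
      obtain ⟨s, rfl⟩ := this
      rw [mem_map]
      exact ⟨Sum.inl s, h1 s, rfl⟩
    · right
      intro x hx
      have : x ∈ Set.range (T.orderEmbOfFin hT) := by rw [Finset.range_orderEmbOfFin]; exact hx
      obtain ⟨s, rfl⟩ := this
      rw [mem_map]
      exact ⟨Sum.inr s, h1 s, rfl⟩

/-- a family that meets every copy gives a lower bound for `ex` -/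
theorem ex_ge_of_cover {n k i : ℕ} (G : Finset (Finset (Fin n)))
    (hG : ∀ S T : Finset (Fin n), S.card = i → T.card = k - 1 → Disjoint S T →
      ∃ A ∈ G, A.card = k ∧ A ⊆ S ∪ T ∧ (S ⊆ A ∨ T ⊆ A)) :
    n.choose k ≤ ex n k i + G.card := by
  classical
  set H := ((univ : Finset (Fin n)).powersetCard k) \ G with hH
  have h1 : H.card ≤ ex n k i := by
    apply le_ex
    · intro A hA
      rw [hH, mem_sdiff, mem_powersetCard] at hA
      exact hA.1.2
    · rintro ⟨f, hf⟩
      have hS : ((univ : Finset (Fin i)).map (Function.Embedding.inl.trans f)).card = i := by simp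
      have hT : ((univ : Finset (Fin (k - 1))).map (Function.Embedding.inr.trans f)).card = k - 1 := by
        simp
      have hd : Disjoint ((univ : Finset (Fin i)).map (Function.Embedding.inl.trans f))
          ((univ : Finset (Fin (k - 1))).map (Function.Embedding.inr.trans f)) := by
        rw [Finset.disjoint_left]
        intro x hx hy
        rw [mem_map] at hx hy
        obtain ⟨a, -, rfl⟩ := hx
        obtain ⟨b, -, hb⟩ := hy
        have := f.injective hb
        simp at this
      obtain ⟨A, hAG, hAc, hAsub, hA2⟩ := hG _ _ hS hT hd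
      have hAm : (univ.filter (fun x => f x ∈ A)).map f = A := by
        ext a
        simp only [mem_map, mem_filter, mem_univ, true_and]
        constructor
        · rintro ⟨x, hx, rfl⟩; exact hx
        · intro ha
          have := hAsub ha
          rw [mem_union, mem_map, mem_map] at this
          rcases this with ⟨x, -, hx⟩ | ⟨x, -, hx⟩
          · exact ⟨Sum.inl x, by rw [← hx] at ha; exact ha, hx⟩
          · exact ⟨Sum.inr x, by rw [← hx] at ha; exact ha, hx⟩
      have hmem : (univ.filter (fun x => f x ∈ A)) ∈ FGraph k i := by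
        rw [FGraph, mem_filter]
        refine ⟨mem_univ _, ?_, ?_⟩
        · rw [← Finset.card_map f, hAm, hAc]
        · rcases hA2 with h' | h'
          · left; intro s
            rw [mem_filter]
            exact ⟨mem_univ _, h' (mem_map.mpr ⟨s, mem_univ _, rfl⟩)⟩
          · right; intro s
            rw [mem_filter]
            exact ⟨mem_univ _, h' (mem_map.mpr ⟨s, mem_univ _, rfl⟩)⟩
      have := hf _ hmem
      rw [hAm, hH, mem_sdiff] at this
      exact this.2 hAG
  have h2 : n.choose k ≤ H.card + G.card := by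
    have e1 : ((univ : Finset (Fin n)).powersetCard k).card = n.choose k := by simp
    rw [← e1]
    have := Finset.card_le_card_sdiff_add_card (s := (univ : Finset (Fin n)).powersetCard k) (t := G)
    exact this
  omega

/-- lower bound for `1 - π(F_i)`: the number of edges of `F_i` -/
theorem density_upper {k i : ℕ} (hk : 1 ≤ k) (hi : 1 ≤ i) :
    (k : ℝ) / (i * ((k.choose i : ℝ) + k)) ≤ 1 - turanDensity k i := by
  classical
  obtain ⟨n, hn⟩ : ∃ n, n = k + i - 1 := ⟨_, rfl⟩
  have hkn : k ≤ n := by omega
  have hE : ∀ H : Finset (Finset (Fin n)), (∀ A ∈ H, A.card = k) → ¬ Contains H (FGraph k i) →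
      n.choose i + (k.choose i + k) * H.card ≤ (k.choose i + k) * n.choose k := by
    intro H h1 h2
    set M := ((univ : Finset (Fin n)).powersetCard k) \ H with hM
    have hMc : M.card + H.card = n.choose k := by
      have : H ⊆ (univ : Finset (Fin n)).powersetCard k :=
        fun A hA => mem_powersetCard.mpr ⟨subset_univ _, h1 A hA⟩
      rw [hM, Finset.card_sdiff_add_card_eq_card this]; simp
    have hex : ∀ S : Finset (Fin n), S.card = i → ∃ A ∈ M, (S ⊆ A ∨ Sᶜ ⊆ A) := by
      intro S hS
      obtain ⟨A, a1, a2, a3, a4⟩ := missing h2 hS (T := Sᶜ)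
        (by rw [Finset.card_compl, Fintype.card_fin, hS]; omega) disjoint_compl_right
      refine ⟨A, ?_, a3⟩
      rw [hM, mem_sdiff]
      exact ⟨mem_powersetCard.mpr ⟨subset_univ _, a1⟩, a4⟩
    have hcount : ((univ : Finset (Fin n)).powersetCard i).card ≤ (k.choose i + k) * M.card := by
      have hsub : (univ : Finset (Fin n)).powersetCard i ⊆ M.biUnion (fun A =>
          A.powersetCard i ∪ (A.powersetCard (k - 1)).image (fun T => Tᶜ)) := by
        intro S hS
        rw [mem_powersetCard] at hS
        obtain ⟨A, hAM, hA⟩ := hex S hS.2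
        rw [mem_biUnion]
        refine ⟨A, hAM, ?_⟩
        rw [mem_union]
        rcases hA with hA | hA
        · left; exact mem_powersetCard.mpr ⟨hA, hS.2⟩
        · right
          rw [mem_image]
          refine ⟨Sᶜ, mem_powersetCard.mpr ⟨hA, ?_⟩, compl_compl _⟩
          rw [Finset.card_compl, Fintype.card_fin, hS.2]; omega
      refine (Finset.card_le_card hsub).trans ?_
      refine (Finset.card_biUnion_le).trans ?_
      rw [mul_comm, ← smul_eq_mul, ← Finset.sum_const]
      refine Finset.sum_le_sum fun A hA => ?_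
      have hAc : A.card = k := by
        rw [hM, mem_sdiff, mem_powersetCard] at hA; exact hA.1.2
      refine (Finset.card_union_le _ _).trans ?_
      refine Nat.add_le_add ?_ ?_
      · rw [Finset.card_powersetCard, hAc]
      · refine Finset.card_image_le.trans ?_
        rw [Finset.card_powersetCard, hAc]
        obtain ⟨k', rfl⟩ : ∃ k', k = k' + 1 := ⟨k - 1, by omega⟩
        simp
    rw [Finset.card_powersetCard, card_univ, Fintype.card_fin] at hcount
    rw [← hMc]
    nlinarith
  have hexle : n.choose i + (k.choose i + k) * ex n k i ≤ (k.choose i + k) * n.choose k := by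
    by_cases hne : ∃ H : Finset (Finset (Fin n)), (∀ A ∈ H, A.card = k) ∧
      ¬ Contains H (FGraph k i) ∧ ex n k i ≤ H.card
    · obtain ⟨H, h1, h2, h3⟩ := hne
      have := hE H h1 h2
      nlinarith
    · exfalso
      push Not at hne
      have h0 : ¬ Contains (∅ : Finset (Finset (Fin n))) (FGraph k i) := by
        rintro ⟨f, hf⟩
        have hne' : (FGraph k i).Nonempty := by
          have : k ≤ Fintype.card (Fin i ⊕ Fin (k - 1)) := by simp; omega
          obtain ⟨A, hA1, hA2⟩ := Finset.exists_superset_card_eq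
            (s := (univ : Finset (Fin (k - 1))).map Function.Embedding.inr) (n := k)
            (by simp) this
          refine ⟨A, ?_⟩
          rw [FGraph, mem_filter]
          refine ⟨mem_univ _, hA2, Or.inr fun t => hA1 ?_⟩
          rw [mem_map]; exact ⟨t, mem_univ _, rfl⟩
        obtain ⟨A, hA⟩ := hne'
        have := hf A hA
        simp at this
      have hlt := hne ∅ (by simp) h0
      have hle : ex n k i ≤ ex n k i - 1 := by
        apply ex_le
        intro H h1 h2
        have := hne H h1 h2
        omega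
      rw [Finset.card_empty] at hlt
      omega
  have hd := density_le n k i hkn
  have c1 : 0 < n.choose k := Nat.choose_pos hkn
  have c1R : (0 : ℝ) < (n.choose k : ℝ) := by exact_mod_cast c1
  have hid : i * n.choose i = k * n.choose k := by
    have h3 : n.choose k = n.choose (i - 1) := by
      rw [← Nat.choose_symm hkn]; congr 1; omega
    rw [h3]
    obtain ⟨i', rfl⟩ : ∃ i', i = i' + 1 := ⟨i - 1, by omega⟩
    have h4 := Nat.choose_succ_right_eq n i'
    have h5 : n - i' = k := by omega
    rw [h5] at h4
    simp only [Nat.add_sub_cancel]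
    rw [mul_comm, h4, mul_comm]
  have hD : (0 : ℝ) < (k.choose i : ℝ) + k := by
    have : (0 : ℝ) < k := by exact_mod_cast hk
    positivity
  have hiR : (0 : ℝ) < i := by exact_mod_cast hi
  have h6 : (n.choose i : ℝ) + ((k.choose i : ℝ) + k) * (ex n k i : ℝ)
      ≤ ((k.choose i : ℝ) + k) * (n.choose k : ℝ) := by exact_mod_cast hexle
  have hidR : (i : ℝ) * (n.choose i : ℝ) = k * (n.choose k : ℝ) := by exact_mod_cast hid
  have h7 : (ex n k i : ℝ) / (n.choose k : ℝ) ≤ 1 - (k : ℝ) / (i * ((k.choose i : ℝ) + k)) := by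
    rw [div_le_iff₀ c1R, sub_mul, one_mul]
    have h8 : (k : ℝ) / (i * ((k.choose i : ℝ) + k)) * (n.choose k : ℝ)
        = (n.choose i : ℝ) / ((k.choose i : ℝ) + k) := by
      rw [div_mul_eq_mul_div, ← hidR, mul_div_mul_left _ _ hiR.ne']
    rw [h8]
    have h9 : (ex n k i : ℝ) ≤ (((k.choose i : ℝ) + k) * (n.choose k : ℝ) - (n.choose i : ℝ)) / ((k.choose i : ℝ) + k) := by
      rw [le_div_iff₀ hD]; linarith
    refine h9.trans (le_of_eq ?_)
    field_simp
  linarith

end Pool.Agent.MP7badbe
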