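import Pool.Agent.MP7badbe.Basic

/-!
# Lower bound `1 - π(F_{k-j}) ≥ log k / (4^(j+1) k^j)` for `j ≥ 2`

Let `G` be the missing edges of an `F_{k-j}`-free `k`-graph, of density `δ`.  For random disjoint
`S`, `T` of sizes `k-j`, `k-1`, some `T + s` is in `G` with probability at most `k δ`.  Otherwise `T`
contains a `j`-set `R` with `S ∪ R` in `G`; by the Harris-Kleitman inequality and Jensen this fails
with probability at least about `exp (-2 (4k)^j δ)`.
-/

open Finset

namespace Pool.Agent.MP7badbe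

/-! ### Independent sets of given size -/

open Classical in
/-- Harris–Kleitman: a random subset misses all members of a `j`-uniform family `L` with
probability at least `(1 - 2^{-j})^{|L|}`. -/
theorem indep_count {α : Type*} [Fintype α] [DecidableEq α] (j : ℕ) (L : Finset (Finset α)) :
    (∀ R ∈ L, R.card = j) → (2 : ℝ) ^ (Fintype.card α) * (1 - 1 / 2 ^ j) ^ L.card
      ≤ ((univ.filter (fun T : Finset α => ∀ R ∈ L, ¬ R ⊆ T)).card : ℝ) := by
  induction L using Finset.induction_on with
  | empty =>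
    intro _
    simp
  | insert R₀ L hR ih =>
    intro hL
    have ih' := ih (fun R h => hL R (mem_insert_of_mem h))
    set 𝒜 : Finset (Finset α) := univ.filter (fun T : Finset α => ∀ R ∈ L, ¬ R ⊆ T) with h𝒜
    set ℬ : Finset (Finset α) := univ.filter (fun T : Finset α => ¬ R₀ ⊆ T) with hℬ
    have l1 : IsLowerSet (𝒜 : Set (Finset α)) := by
      intro T T' hT'T hT
      rw [mem_coe, h𝒜, mem_filter] at hT ⊢
      exact ⟨mem_univ _, fun R hR hRT => hT.2 R hR (hRT.trans hT'T)⟩
    have l2 : IsLowerSet (ℬ : Set (Finset α)) := by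
      intro T T' hT'T hT
      rw [mem_coe, hℬ, mem_filter] at hT ⊢
      exact ⟨mem_univ _, fun hRT => hT.2 (hRT.trans hT'T)⟩
    have hk := l1.le_card_inter_finset l2
    have hj : R₀.card = j := hL R₀ (mem_insert_self _ _)
    have hjn : j ≤ Fintype.card α := by rw [← hj]; exact Finset.card_le_univ _
    have hℬc : (ℬ.card : ℝ) = (2 : ℝ) ^ (Fintype.card α) * (1 - 1 / 2 ^ j) := by
      have e1 : (univ.filter (fun T : Finset α => R₀ ⊆ T)).card = 2 ^ (Fintype.card α - j) := by
        have : (univ.filter (fun T : Finset α => R₀ ⊆ T)) = Finset.Icc R₀ univ := by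
          ext T; simp
        rw [this, Finset.card_Icc_finset (subset_univ _), card_univ, hj]
      have e2 : (univ.filter (fun T : Finset α => R₀ ⊆ T)).card + ℬ.card = 2 ^ (Fintype.card α) := by
        rw [hℬ, Finset.card_filter_add_card_filter_not]
        simp
      have e3 : (ℬ.card : ℝ) = (2 : ℝ) ^ (Fintype.card α) - 2 ^ (Fintype.card α - j) := by
        have := congrArg (Nat.cast : ℕ → ℝ) e2
        push_cast [e1] at this
        linarith
      rw [e3]
      have e4 : (2 : ℝ) ^ (Fintype.card α) = 2 ^ (Fintype.card α - j) * 2 ^ j := by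
        rw [← pow_add]; congr 1; omega
      rw [e4]; field_simp
    have hI : (univ.filter (fun T : Finset α => ∀ R ∈ insert R₀ L, ¬ R ⊆ T)) = 𝒜 ∩ ℬ := by
      ext T
      rw [h𝒜, hℬ]
      simp only [mem_filter, mem_univ, true_and, mem_inter, mem_insert, forall_eq_or_imp]
      tauto
    rw [hI, Finset.card_insert_of_notMem hR]
    have hkR : (𝒜.card : ℝ) * (ℬ.card : ℝ) ≤ 2 ^ (Fintype.card α) * ((𝒜 ∩ ℬ).card : ℝ) := by
      exact_mod_cast hk
    have hp : (0 : ℝ) < 2 ^ (Fintype.card α) := by positivity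
    have hθ : (0 : ℝ) ≤ 1 - 1 / 2 ^ j := by
      rw [sub_nonneg, div_le_one (by positivity)]
      exact one_le_pow₀ (by norm_num)
    have h1 : (2 : ℝ) ^ (Fintype.card α) * ((2 : ℝ) ^ (Fintype.card α) * (1 - 1 / 2 ^ j) ^ (L.card + 1))
        ≤ 2 ^ (Fintype.card α) * ((𝒜 ∩ ℬ).card : ℝ) := by
      calc (2 : ℝ) ^ (Fintype.card α) * ((2 : ℝ) ^ (Fintype.card α) * (1 - 1 / 2 ^ j) ^ (L.card + 1))
          = ((2 : ℝ) ^ (Fintype.card α) * (1 - 1 / 2 ^ j) ^ L.card) *
            ((2 : ℝ) ^ (Fintype.card α) * (1 - 1 / 2 ^ j)) := by ring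
        _ ≤ (𝒜.card : ℝ) * (ℬ.card : ℝ) := by
            rw [hℬc]; gcongr
        _ ≤ _ := hkR
    exact le_of_mul_le_mul_left h1 hp

/-- In a family closed under taking subsets the relative sizes of the levels decrease. -/
theorem level_down {α : Type*} [DecidableEq α] (U : Finset α) (I : Finset (Finset α))
    (hU : ∀ T ∈ I, T ⊆ U) (hd : ∀ T ∈ I, ∀ T' ⊆ T, T' ∈ I) (r t : ℕ) (hrt : r ≤ t) :
    (I.filter (fun T => T.card = t)).card * U.card.choose r
      ≤ (I.filter (fun T => T.card = r)).card * U.card.choose t := by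
  rcases Nat.lt_or_ge U.card t with htU | htU
  · have : (I.filter (fun T => T.card = t)) = ∅ := by
      rw [Finset.filter_eq_empty_iff]
      intro T hT hc
      have := Finset.card_le_card (hU T hT)
      omega
    rw [this]; simp
  · have h1 := Finset.card_mul_le_card_mul (fun (a b : Finset α) => b ⊆ a)
      (s := I.filter (fun T => T.card = t)) (t := I.filter (fun T => T.card = r))
      (m := t.choose r) (n := (U.card - r).choose (t - r)) (by
        intro a ha
        rw [mem_filter] at ha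
        rw [← ha.2, ← Finset.card_powersetCard]
        apply Finset.card_le_card
        intro b hb
        rw [mem_powersetCard] at hb
        rw [Finset.mem_bipartiteAbove, mem_filter]
        exact ⟨⟨hd a ha.1 b hb.1, hb.2⟩, hb.1⟩) (by
        intro b hb
        rw [mem_filter] at hb
        have hbU := hU b hb.1
        have : (U.card - r).choose (t - r) = ((U \ b).powersetCard (t - r)).card := by
          rw [Finset.card_powersetCard, Finset.card_sdiff_of_subset hbU, hb.2]
        rw [this]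
        refine Finset.card_le_card_of_injOn (fun a => a \ b) ?_ ?_
        · intro a ha
          rw [mem_coe, Finset.mem_bipartiteBelow, mem_filter] at ha
          rw [mem_coe, mem_powersetCard]
          exact ⟨Finset.sdiff_subset_sdiff (hU a ha.1.1) (Finset.Subset.refl _), by
            rw [Finset.card_sdiff_of_subset ha.2, ha.1.2, hb.2]⟩
        · intro a ha a' ha' haa
          rw [mem_coe, Finset.mem_bipartiteBelow, mem_filter] at ha ha'
          simp only at haa
          rw [← Finset.sdiff_union_of_subset ha.2, ← Finset.sdiff_union_of_subset ha'.2, haa])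
    have h2 := Nat.choose_mul (n := U.card) hrt
    have h3 : 0 < t.choose r := Nat.choose_pos hrt
    apply Nat.le_of_mul_le_mul_right (c := t.choose r) _ h3
    calc (I.filter (fun T => T.card = t)).card * U.card.choose r * t.choose r
        = ((I.filter (fun T => T.card = t)).card * t.choose r) * U.card.choose r := by ring
      _ ≤ ((I.filter (fun T => T.card = r)).card * (U.card - r).choose (t - r)) * U.card.choose r :=
          Nat.mul_le_mul_right _ h1
      _ = (I.filter (fun T => T.card = r)).card * (U.card.choose r * (U.card - r).choose (t - r)) := by ring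
      _ = (I.filter (fun T => T.card = r)).card * (U.card.choose t * t.choose r) := by rw [h2]
      _ = _ := by ring

theorem tail_bound (N r : ℕ) : ((∑ t ∈ range r, N.choose t : ℕ) : ℝ) ≤ 2 ^ r * (3 / 2) ^ N := by
  have h1 : ((1 : ℝ) / 2 + 1) ^ N = ∑ t ∈ range (N + 1), (1 / 2 : ℝ) ^ t * 1 ^ (N - t) * (N.choose t : ℝ) := by
    rw [add_pow]
  have h2 : ((1 : ℝ) / 2 + 1) = 3 / 2 := by norm_num
  rw [← h2, h1, Finset.mul_sum]
  push_cast
  have h3 : ∑ t ∈ range r, (N.choose t : ℝ) ≤ ∑ t ∈ range (N + 1) ∩ range r, (N.choose t : ℝ) := by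
    have : ∑ t ∈ range r, (N.choose t : ℝ) = ∑ t ∈ range (N + 1) ∩ range r, (N.choose t : ℝ) := by
      symm
      refine Finset.sum_subset Finset.inter_subset_right fun t ht ht' => ?_
      rw [mem_inter, not_and_or] at ht'
      rcases ht' with h | h
      · rw [mem_range] at h
        rw [Nat.choose_eq_zero_of_lt (by omega)]; simp
      · exact absurd ht h
    exact this.le
  refine h3.trans ?_
  refine (Finset.sum_le_sum (g := fun t => (2 : ℝ) ^ r * ((1 / 2 : ℝ) ^ t * 1 ^ (N - t) * (N.choose t : ℝ))) ?_).trans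
    (Finset.sum_le_sum_of_subset_of_nonneg Finset.inter_subset_left fun t _ _ => by positivity)
  intro t ht
  rw [mem_inter, mem_range, mem_range] at ht
  have h4 : (1 : ℝ) ≤ 2 ^ r * (1 / 2) ^ t := by
    rw [one_div, inv_pow, ← div_eq_mul_inv, le_div_iff₀ (by positivity), one_mul]
    exact pow_le_pow_right₀ (by norm_num) (by omega)
  calc (N.choose t : ℝ) = 1 * (N.choose t : ℝ) := (one_mul _).symm
    _ ≤ (2 ^ r * (1 / 2) ^ t) * (N.choose t : ℝ) := by gcongr
    _ = (2 : ℝ) ^ r * ((1 / 2 : ℝ) ^ t * 1 ^ (N - t) * (N.choose t : ℝ)) := by rw [one_pow]; ring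

open Classical in
/-- Many `r`-subsets of `U` contain no member of a sparse `j`-uniform family `L`. -/
theorem level_bound {α : Type*} [Fintype α] [DecidableEq α] (U : Finset α) (j r : ℕ)
    (L : Finset (Finset α)) (hL : ∀ R ∈ L, R.card = j ∧ R ⊆ U) (hr : r ≤ U.card) :
    (U.card.choose r : ℝ) * ((1 - 1 / 2 ^ j) ^ L.card - 2 ^ r * (3 / 4) ^ U.card)
      ≤ (((U.powersetCard r).filter (fun T => ∀ R ∈ L, ¬ R ⊆ T)).card : ℝ) := by
  set N := U.card with hN
  set I : Finset (Finset α) := U.powerset.filter (fun T => ∀ R ∈ L, ¬ R ⊆ T) with hI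
  have h1 := indep_count j L (fun R hR => (hL R hR).1)
  -- restrict to subsets of `U`
  have h2 : (univ.filter (fun T : Finset α => ∀ R ∈ L, ¬ R ⊆ T)).card ≤ I.card * 2 ^ (Fintype.card α - N) := by
    have e1 : 2 ^ (Fintype.card α - N) = (Uᶜ.powerset).card := by
      rw [Finset.card_powerset, Finset.card_compl]
    rw [e1, ← Finset.card_product]
    refine Finset.card_le_card_of_injOn (fun T => (T ∩ U, T ∩ Uᶜ)) ?_ ?_
    · intro T hT
      rw [mem_coe, mem_filter] at hT
      rw [mem_coe, mem_product, hI, mem_filter, mem_powerset, mem_powerset]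
      exact ⟨⟨Finset.inter_subset_right, fun R hR hRT => hT.2 R hR (hRT.trans Finset.inter_subset_left)⟩,
        Finset.inter_subset_right⟩
    · intro T _ T' _ h
      simp only [Prod.mk.injEq] at h
      have e : ∀ T : Finset α, T = (T ∩ U) ∪ (T ∩ Uᶜ) := by
        intro T; ext a; by_cases ha : a ∈ U <;> simp [ha]
      rw [e T, e T', h.1, h.2]
  have h3 : (2 : ℝ) ^ N * (1 - 1 / 2 ^ j) ^ L.card ≤ (I.card : ℝ) := by
    have e1 : (2 : ℝ) ^ (Fintype.card α) = 2 ^ N * 2 ^ (Fintype.card α - N) := by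
      rw [← pow_add]; congr 1
      have : N ≤ Fintype.card α := Finset.card_le_univ _
      omega
    have h2R : ((univ.filter (fun T : Finset α => ∀ R ∈ L, ¬ R ⊆ T)).card : ℝ)
        ≤ (I.card : ℝ) * 2 ^ (Fintype.card α - N) := by exact_mod_cast h2
    have hp : (0 : ℝ) < 2 ^ (Fintype.card α - N) := by positivity
    have := h1.trans h2R
    rw [e1] at this
    apply le_of_mul_le_mul_right _ hp
    linarith
  -- split by size
  set Ir := (I.filter (fun T => T.card = r)).card with hIr
  have h4 : I.card = ∑ t ∈ range (N + 1), (I.filter (fun T => T.card = t)).card := by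
    rw [Finset.card_eq_sum_card_fiberwise (f := fun T => T.card) (t := range (N + 1))]
    intro T hT
    rw [mem_coe, hI, mem_filter, mem_powerset] at hT
    rw [mem_coe, mem_range]
    exact Nat.lt_succ_of_le (Finset.card_le_card hT.1)
  have hIU : ∀ T ∈ I, T ⊆ U := fun T hT => by
    rw [hI, mem_filter, mem_powerset] at hT; exact hT.1
  have hId : ∀ T ∈ I, ∀ T' ⊆ T, T' ∈ I := by
    intro T hT T' hT'
    rw [hI, mem_filter, mem_powerset] at hT ⊢
    exact ⟨hT'.trans hT.1, fun R hR hRT => hT.2 R hR (hRT.trans hT')⟩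
  have c1 : 0 < N.choose r := Nat.choose_pos hr
  have c1R : (0 : ℝ) < (N.choose r : ℝ) := by exact_mod_cast c1
  have h5 : ∀ t ∈ range (N + 1), ((I.filter (fun T => T.card = t)).card : ℝ)
      ≤ (if t < r then (N.choose t : ℝ) else 0) + (N.choose t : ℝ) * ((Ir : ℝ) / (N.choose r : ℝ)) := by
    intro t _
    by_cases htr : t < r
    · rw [if_pos htr]
      have : (I.filter (fun T => T.card = t)).card ≤ N.choose t := by
        rw [hN, ← Finset.card_powersetCard]
        apply Finset.card_le_card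
        intro T hT
        rw [mem_filter] at hT
        exact mem_powersetCard.mpr ⟨hIU T hT.1, hT.2⟩
      have h' : ((I.filter (fun T => T.card = t)).card : ℝ) ≤ (N.choose t : ℝ) := by exact_mod_cast this
      have : 0 ≤ (N.choose t : ℝ) * ((Ir : ℝ) / (N.choose r : ℝ)) := by positivity
      linarith
    · rw [if_neg htr, zero_add]
      have := level_down U I hIU hId r t (by omega)
      have h' : ((I.filter (fun T => T.card = t)).card : ℝ) * (N.choose r : ℝ)
          ≤ (Ir : ℝ) * (N.choose t : ℝ) := by exact_mod_cast this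
      rw [mul_div_assoc', le_div_iff₀ c1R]
      linarith
  have h6 : (I.card : ℝ) ≤ 2 ^ r * (3 / 2) ^ N + 2 ^ N * ((Ir : ℝ) / (N.choose r : ℝ)) := by
    rw [h4]
    push_cast
    refine (Finset.sum_le_sum h5).trans ?_
    rw [Finset.sum_add_distrib]
    refine add_le_add ?_ ?_
    · rw [← Finset.sum_filter]
      have := tail_bound N r
      push_cast at this
      refine le_trans (Finset.sum_le_sum_of_subset_of_nonneg ?_ fun t _ _ => by positivity) this
      intro t ht
      rw [mem_filter] at ht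
      rw [mem_range]; exact ht.2
    · rw [← Finset.sum_mul]
      have : ∑ t ∈ range (N + 1), (N.choose t : ℝ) = 2 ^ N := by
        exact_mod_cast Nat.sum_range_choose N
      rw [this]
  have h7 : (Ir : ℝ) ≤ (((U.powersetCard r).filter (fun T => ∀ R ∈ L, ¬ R ⊆ T)).card : ℝ) := by
    have : (I.filter (fun T => T.card = r)) ⊆ ((U.powersetCard r).filter (fun T => ∀ R ∈ L, ¬ R ⊆ T)) := by
      intro T hT
      rw [mem_filter, hI, mem_filter, mem_powerset] at hT
      rw [mem_filter, mem_powersetCard]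
      exact ⟨⟨hT.1.1, hT.2⟩, hT.1.2⟩
    exact_mod_cast Finset.card_le_card this
  refine le_trans ?_ h7
  have h8 := h3.trans h6
  have hp : (0 : ℝ) < 2 ^ N := by positivity
  have e5 : (3 / 2 : ℝ) ^ N = 2 ^ N * (3 / 4) ^ N := by
    rw [← mul_pow]; norm_num
  rw [e5] at h8
  have h9 : (1 - 1 / 2 ^ j) ^ L.card ≤ 2 ^ r * (3 / 4) ^ N + (Ir : ℝ) / (N.choose r : ℝ) := by
    apply le_of_mul_le_mul_left _ hp
    linarith
  have h10 : ((1 - 1 / 2 ^ j) ^ L.card - 2 ^ r * (3 / 4) ^ N) ≤ (Ir : ℝ) / (N.choose r : ℝ) := by linarith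
  rw [le_div_iff₀ c1R] at h10
  linarith

theorem exists_ex (n : ℕ) {k i : ℕ} (hk : 1 ≤ k) (hi : 1 ≤ i) :
    ∃ H : Finset (Finset (Fin n)), (∀ A ∈ H, A.card = k) ∧ ¬ Contains H (FGraph k i) ∧
      H.card = ex n k i := by
  classical
  have h0 : ¬ Contains (∅ : Finset (Finset (Fin n))) (FGraph k i) := by
    rintro ⟨f, hf⟩
    have hne' : (FGraph k i).Nonempty := by
      have : k ≤ Fintype.card (Fin i ⊕ Fin (k - 1)) := by simp; omega
      obtain ⟨A, hA1, hA2⟩ := Finset.exists_superset_card_eq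
        (s := (univ : Finset (Fin (k - 1))).map Function.Embedding.inr) (n := k)
        (by simp) this
      refine ⟨A, ?_⟩
      rw [FGraph, mem_filter]
      refine ⟨mem_univ _, hA2, Or.inr fun t => hA1 ?_⟩
      rw [mem_map]; exact ⟨t, mem_univ _, rfl⟩
    obtain ⟨A, hA⟩ := hne'
    have := hf A hA
    simp at this
  have hnon : ((((univ : Finset (Fin n)).powersetCard k).powerset).filter
      (fun H => ¬ Contains H (FGraph k i))).Nonempty := by
    refine ⟨∅, ?_⟩
    rw [mem_filter, mem_powerset]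
    exact ⟨Finset.empty_subset _, h0⟩
  obtain ⟨H, hH, he⟩ := Finset.exists_mem_eq_sup _ hnon Finset.card
  rw [mem_filter, mem_powerset] at hH
  exact ⟨H, fun A hA => (mem_powersetCard.mp (hH.1 hA)).2, hH.2, he.symm⟩

theorem binom_swap (n k i : ℕ) (hk : 1 ≤ k) (hi : 1 ≤ i) (hn : k + i ≤ n) :
    k * n.choose k * (n - k).choose (i - 1) = i * n.choose i * (n - i).choose (k - 1) := by
  obtain ⟨k', rfl⟩ : ∃ k', k = k' + 1 := ⟨k - 1, by omega⟩
  obtain ⟨i', rfl⟩ : ∃ i', i = i' + 1 := ⟨i - 1, by omega⟩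
  simp only [Nat.add_sub_cancel]
  have h1 : n.choose (k' + 1) * (k' + 1) = n.choose k' * (n - k') := Nat.choose_succ_right_eq n k'
  have h2 : (n - k') * (n - (k' + 1)).choose i' = (n - k').choose (i' + 1) * (i' + 1) := by
    have := Nat.add_one_mul_choose_eq (n - (k' + 1)) i'
    have e : n - (k' + 1) + 1 = n - k' := by omega
    rw [e] at this; exact this
  have h3 : n.choose (k' + (i' + 1)) * (k' + (i' + 1)).choose k'
      = n.choose k' * (n - k').choose (i' + 1) := by
    have := Nat.choose_mul (n := n) (k := k' + (i' + 1)) (s := k') (by omega)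
    rw [this]; congr 2; omega
  have h4 : n.choose (k' + (i' + 1)) * (k' + (i' + 1)).choose (i' + 1)
      = n.choose (i' + 1) * (n - (i' + 1)).choose k' := by
    have := Nat.choose_mul (n := n) (k := k' + (i' + 1)) (s := i' + 1) (by omega)
    rw [this]; congr 2; omega
  have h5 : (k' + (i' + 1)).choose k' = (k' + (i' + 1)).choose (i' + 1) := by
    rw [← Nat.choose_symm (by omega : k' ≤ k' + (i' + 1))]; congr 1; omega
  calc (k' + 1) * n.choose (k' + 1) * (n - (k' + 1)).choose i'
      = (n.choose (k' + 1) * (k' + 1)) * (n - (k' + 1)).choose i' := by ring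
    _ = n.choose k' * ((n - k') * (n - (k' + 1)).choose i') := by rw [h1]; ring
    _ = (n.choose k' * (n - k').choose (i' + 1)) * (i' + 1) := by rw [h2]; ring
    _ = (n.choose (i' + 1) * (n - (i' + 1)).choose k') * (i' + 1) := by rw [← h3, h5, h4]
    _ = _ := by ring

theorem exp_le_one_sub {x : ℝ} (h0 : 0 ≤ x) (h1 : x ≤ 1 / 2) : Real.exp (-(2 * x)) ≤ 1 - x := by
  have h2 : 1 + 2 * x ≤ Real.exp (2 * x) := by
    have := Real.add_one_le_exp (2 * x); linarith
  have h3 : 1 ≤ (1 - x) * Real.exp (2 * x) := by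
    calc (1 : ℝ) ≤ (1 - x) * (1 + 2 * x) := by nlinarith
      _ ≤ (1 - x) * Real.exp (2 * x) := by
          have : 0 ≤ 1 - x := by linarith
          gcongr
  rw [Real.exp_neg]
  have hp := Real.exp_pos (2 * x)
  rw [inv_eq_one_div, div_le_iff₀ hp]
  exact h3

/-- The main inequality for the lower bound on `1 - π(F_{k-j})`. -/
theorem main_ineq {n k i j : ℕ} (hij : i + j = k) (hi : 1 ≤ i) (hj : 1 ≤ j) (hn : n = 8 * k + i)
    {H : Finset (Finset (Fin n))} (hH : ∀ A ∈ H, A.card = k) (hF : ¬ Contains H (FGraph k i))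
    {δ : ℝ} (hδ : δ * (n.choose k : ℝ) = (n.choose k : ℝ) - H.card) :
    Real.exp (-((2 / 2 ^ j) * (δ * ((8 * k).choose j : ℝ)))) - 2 ^ (k - 1) * (3 / 4) ^ (8 * k) ≤ i * δ := by
  classical
  set G := ((univ : Finset (Fin n)).powersetCard k) \ H with hG
  have hGc : (G.card : ℝ) = δ * (n.choose k : ℝ) := by
    have h1 : H ⊆ (univ : Finset (Fin n)).powersetCard k :=
      fun A hA => mem_powersetCard.mpr ⟨subset_univ _, hH A hA⟩
    have h2 : G.card + H.card = n.choose k := by
      rw [hG, Finset.card_sdiff_add_card_eq_card h1]; simp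
    have h3 : (G.card : ℝ) + H.card = n.choose k := by exact_mod_cast h2
    linarith
  have hGk : ∀ A ∈ G, A.card = k := fun A hA => by
    rw [hG, mem_sdiff, mem_powersetCard] at hA; exact hA.1.2
  set 𝒮 := (univ : Finset (Fin n)).powersetCard i with h𝒮
  let L : Finset (Fin n) → Finset (Finset (Fin n)) :=
    fun S => (Sᶜ.powersetCard j).filter (fun R => S ∪ R ∈ G)
  let gd : Finset (Fin n) → Finset (Finset (Fin n)) :=
    fun S => (Sᶜ.powersetCard (k - 1)).filter (fun T => ∀ R ∈ L S, ¬ R ⊆ T)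
  set M := n.choose i with hM
  have hMc : 𝒮.card = M := by rw [h𝒮]; simp [hM]
  have hSc : ∀ S ∈ 𝒮, S.card = i := fun S hS => (mem_powersetCard.mp hS).2
  have hScc : ∀ S ∈ 𝒮, (Sᶜ).card = 8 * k := fun S hS => by
    rw [Finset.card_compl, Fintype.card_fin, hSc S hS]; omega
  -- lower bound for the number of good sets
  have h1 : ∀ S ∈ 𝒮, ((8 * k).choose (k - 1) : ℝ) * ((1 - 1 / 2 ^ j) ^ (L S).card
      - 2 ^ (k - 1) * (3 / 4) ^ (8 * k)) ≤ ((gd S).card : ℝ) := by
    intro S hS
    have := level_bound Sᶜ j (k - 1) (L S) (by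
      intro R hR
      have hR' := (mem_filter.mp hR).1
      rw [mem_powersetCard] at hR'
      exact ⟨hR'.2, hR'.1⟩) (by rw [hScc S hS]; omega)
    rw [hScc S hS] at this
    exact this
  -- upper bound for the number of good pairs
  have h2 : ∑ S ∈ 𝒮, (gd S).card ≤ G.card * (k * (n - k).choose (i - 1)) := by
    rw [← Finset.card_sigma]
    have hsub : (𝒮.sigma gd) ⊆ G.biUnion (fun A => A.biUnion (fun s =>
        ((Aᶜ).powersetCard (i - 1)).image (fun Q => (⟨insert s Q, A.erase s⟩ : (_ : Finset (Fin n)) × Finset (Fin n))))) := by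
      rintro ⟨S, T⟩ hST
      rw [mem_sigma] at hST
      obtain ⟨hS, hT⟩ := hST
      simp only at hS hT
      have hT' := mem_filter.mp hT
      obtain ⟨hT1, hT2⟩ := hT'
      rw [mem_powersetCard] at hT1
      have hdis : Disjoint S T := by
        rw [Finset.disjoint_left]; intro a ha hb
        have := hT1.1 hb
        rw [mem_compl] at this; exact this ha
      obtain ⟨A, a1, a2, a3, a4⟩ := missing hF (hSc S hS) hT1.2 hdis
      have hAG : A ∈ G := by
        rw [hG, mem_sdiff]; exact ⟨mem_powersetCard.mpr ⟨subset_univ _, a1⟩, a4⟩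
      rcases a3 with hSA | hTA
      · exfalso
        refine hT2 (A \ S) ?_ ?_
        · rw [mem_filter, mem_powersetCard]
          refine ⟨⟨?_, ?_⟩, ?_⟩
          · intro a ha; rw [mem_sdiff] at ha; rw [mem_compl]; exact ha.2
          · rw [Finset.card_sdiff_of_subset hSA, a1, hSc S hS]; omega
          · rw [Finset.union_sdiff_of_subset hSA]; exact hAG
        · intro a ha
          rw [mem_sdiff] at ha
          rcases mem_union.mp (a2 ha.1) with h | h
          · exact absurd h ha.2
          · exact h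
      · have hc : (A \ T).card = 1 := by
          rw [Finset.card_sdiff_of_subset hTA, a1, hT1.2]; omega
        obtain ⟨s, hs⟩ := Finset.card_eq_one.mp hc
        have hsA : s ∈ A ∧ s ∉ T := by
          have : s ∈ A \ T := by rw [hs]; simp
          simpa using this
        have hsS : s ∈ S := by
          rcases mem_union.mp (a2 hsA.1) with h | h
          · exact h
          · exact absurd h hsA.2
        have hTe : T = A.erase s := by
          apply Finset.eq_of_subset_of_card_le
          · intro a ha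
            rw [mem_erase]
            refine ⟨?_, hTA ha⟩
            rintro rfl; exact hsA.2 ha
          · rw [Finset.card_erase_of_mem hsA.1, a1, hT1.2]
        rw [mem_biUnion]
        refine ⟨A, hAG, ?_⟩
        rw [mem_biUnion]
        refine ⟨s, hsA.1, ?_⟩
        rw [mem_image]
        refine ⟨S.erase s, ?_, ?_⟩
        · rw [mem_powersetCard]
          refine ⟨?_, by rw [Finset.card_erase_of_mem hsS, hSc S hS]⟩
          intro a ha
          rw [mem_erase] at ha
          rw [mem_compl]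
          intro haA
          have : a ∈ T := by rw [hTe, mem_erase]; exact ⟨ha.1, haA⟩
          exact Finset.disjoint_left.mp hdis ha.2 this
        · rw [Finset.insert_erase hsS, ← hTe]
    refine (Finset.card_le_card hsub).trans ?_
    refine Finset.card_biUnion_le.trans ?_
    rw [← smul_eq_mul, ← Finset.sum_const]
    refine Finset.sum_le_sum fun A hA => ?_
    refine Finset.card_biUnion_le.trans ?_
    have hAk := hGk A hA
    calc ∑ s ∈ A, (((Aᶜ).powersetCard (i - 1)).image (fun Q => (⟨insert s Q, A.erase s⟩ : (_ : Finset (Fin n)) × Finset (Fin n)))).card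
        ≤ ∑ s ∈ A, (n - k).choose (i - 1) := by
          refine Finset.sum_le_sum fun s _ => ?_
          refine Finset.card_image_le.trans ?_
          rw [Finset.card_powersetCard, Finset.card_compl, Fintype.card_fin, hAk]
      _ = k * (n - k).choose (i - 1) := by rw [Finset.sum_const, hAk, smul_eq_mul]
  -- the sum of the sizes of the links
  have h3 : ∑ S ∈ 𝒮, (L S).card ≤ G.card * k.choose i := by
    rw [← Finset.card_sigma]
    have e1 : G.card * k.choose i = (G.sigma (fun A => A.powersetCard i)).card := by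
      rw [Finset.card_sigma]
      rw [← smul_eq_mul, ← Finset.sum_const]
      refine Finset.sum_congr rfl fun A hA => ?_
      rw [Finset.card_powersetCard, hGk A hA]
    rw [e1]
    refine Finset.card_le_card_of_injOn (fun t => ⟨t.1 ∪ t.2, t.1⟩) ?_ ?_
    · rintro ⟨S, R⟩ ht
      rw [mem_coe, mem_sigma] at ht
      have h' := mem_filter.mp ht.2
      rw [mem_coe, mem_sigma]
      refine ⟨h'.2, ?_⟩
      rw [mem_powersetCard]
      exact ⟨subset_union_left, hSc S ht.1⟩
    · rintro ⟨S, R⟩ ht ⟨S', R'⟩ ht' h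
      rw [mem_coe, mem_sigma] at ht ht'
      simp only [Sigma.mk.injEq, heq_eq_eq] at h
      obtain ⟨hu, rfl⟩ := h
      have r1 := (mem_powersetCard.mp (mem_filter.mp ht.2).1).1
      have r2 := (mem_powersetCard.mp (mem_filter.mp ht'.2).1).1
      have hd : ∀ R : Finset (Fin n), R ⊆ Sᶜ → (S ∪ R) \ S = R := by
        intro R hR
        ext a
        simp only [mem_sdiff, mem_union]
        constructor
        · rintro ⟨h | h, h2⟩
          · exact absurd h h2
          · exact h
        · intro h; exact ⟨Or.inr h, by have := hR h; rwa [mem_compl] at this⟩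
      have : R = R' := by rw [← hd R r1, hu, hd R' r2]
      rw [this]
  -- Jensen
  have hMpos : (0 : ℝ) < M := by
    have : 0 < M := Nat.choose_pos (by omega)
    exact_mod_cast this
  set β : ℝ := 2 / 2 ^ j with hβ
  have hβ0 : 0 ≤ β := by positivity
  set μ : ℝ := δ * ((8 * k).choose j : ℝ) with hμ
  have hid : (n.choose k : ℝ) * (k.choose i : ℝ) = (M : ℝ) * ((8 * k).choose j : ℝ) := by
    have := Nat.choose_mul (n := n) (k := k) (s := i) (by omega)
    have e1 : n - i = 8 * k := by omega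
    have e2 : k - i = j := by omega
    rw [e1, e2] at this
    exact_mod_cast this
  have h3R : ∑ S ∈ 𝒮, ((L S).card : ℝ) ≤ M * μ := by
    have : ∑ S ∈ 𝒮, ((L S).card : ℝ) ≤ (G.card : ℝ) * (k.choose i : ℝ) := by exact_mod_cast h3
    refine this.trans (le_of_eq ?_)
    rw [hGc, hμ]
    linear_combination δ * hid
  have h4 : (M : ℝ) * Real.exp (-(β * μ)) ≤ ∑ S ∈ 𝒮, (1 - 1 / 2 ^ j : ℝ) ^ (L S).card := by
    have e1 : ∀ m : ℕ, Real.exp (-(β * μ)) * (1 - β * (m - μ)) ≤ (1 - 1 / 2 ^ j : ℝ) ^ m := by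
      intro m
      have hx0 : (0 : ℝ) ≤ 1 / 2 ^ j := by positivity
      have hx1 : (1 : ℝ) / 2 ^ j ≤ 1 / 2 := by
        apply one_div_le_one_div_of_le (by norm_num)
        calc (2 : ℝ) = 2 ^ 1 := by norm_num
          _ ≤ 2 ^ j := pow_le_pow_right₀ (by norm_num) hj
      have e2 : Real.exp (-(β * m)) ≤ (1 - 1 / 2 ^ j : ℝ) ^ m := by
        have e3 := exp_le_one_sub hx0 hx1
        have e4 : Real.exp (-(β * m)) = (Real.exp (-(2 * (1 / 2 ^ j)))) ^ m := by
          rw [← Real.exp_nat_mul]; congr 1; rw [hβ]; ring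
        rw [e4]
        exact pow_le_pow_left₀ (Real.exp_pos _).le e3 m
      refine le_trans ?_ e2
      have e5 : Real.exp (-(β * m)) = Real.exp (-(β * μ)) * Real.exp (-(β * (m - μ))) := by
        rw [← Real.exp_add]; congr 1; ring
      rw [e5]
      have e6 : 1 - β * (m - μ) ≤ Real.exp (-(β * (m - μ))) := by
        have := Real.add_one_le_exp (-(β * (m - μ))); linarith
      have := Real.exp_pos (-(β * μ))
      gcongr
    calc (M : ℝ) * Real.exp (-(β * μ))
        ≤ Real.exp (-(β * μ)) * (M - β * (∑ S ∈ 𝒮, ((L S).card : ℝ) - M * μ)) := by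
          have h5 : β * (∑ S ∈ 𝒮, ((L S).card : ℝ) - M * μ) ≤ 0 :=
            mul_nonpos_of_nonneg_of_nonpos hβ0 (by linarith)
          have := Real.exp_pos (-(β * μ))
          nlinarith
      _ = ∑ S ∈ 𝒮, Real.exp (-(β * μ)) * (1 - β * (((L S).card : ℝ) - μ)) := by
          rw [← Finset.mul_sum, Finset.sum_sub_distrib, ← Finset.mul_sum, Finset.sum_sub_distrib,
            Finset.sum_const, Finset.sum_const, hMc]
          simp only [nsmul_eq_mul, mul_one]
      _ ≤ _ := Finset.sum_le_sum fun S _ => e1 _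
  -- combine
  set τ : ℝ := 2 ^ (k - 1) * (3 / 4) ^ (8 * k) with hτ
  set B : ℝ := ((8 * k).choose (k - 1) : ℝ) with hB
  have hBpos : 0 < B := by
    have : 0 < (8 * k).choose (k - 1) := Nat.choose_pos (by omega)
    rw [hB]; exact_mod_cast this
  have h5 : (M : ℝ) * B * (Real.exp (-(β * μ)) - τ) ≤ ∑ S ∈ 𝒮, ((gd S).card : ℝ) := by
    calc (M : ℝ) * B * (Real.exp (-(β * μ)) - τ) = B * (M * Real.exp (-(β * μ)) - M * τ) := by ring
      _ ≤ B * (∑ S ∈ 𝒮, (1 - 1 / 2 ^ j : ℝ) ^ (L S).card - M * τ) := by gcongr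
      _ = ∑ S ∈ 𝒮, B * ((1 - 1 / 2 ^ j : ℝ) ^ (L S).card - τ) := by
          rw [← Finset.mul_sum, Finset.sum_sub_distrib, Finset.sum_const, hMc, nsmul_eq_mul]
      _ ≤ _ := Finset.sum_le_sum fun S hS => h1 S hS
  have h6 : ∑ S ∈ 𝒮, ((gd S).card : ℝ) ≤ (M : ℝ) * B * (i * δ) := by
    have e1 : ∑ S ∈ 𝒮, ((gd S).card : ℝ) ≤ (G.card : ℝ) * (k * ((n - k).choose (i - 1) : ℝ)) := by
      exact_mod_cast h2
    refine e1.trans (le_of_eq ?_)
    have e2 := binom_swap n k i (by omega) hi (by omega)
    have e3 : n - i = 8 * k := by omega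
    rw [e3] at e2
    have e4 : (k : ℝ) * (n.choose k : ℝ) * ((n - k).choose (i - 1) : ℝ) = i * M * B := by
      rw [hB]; exact_mod_cast e2
    rw [hGc]
    linear_combination δ * e4
  have h7 : (M : ℝ) * B * (Real.exp (-(β * μ)) - τ) ≤ (M : ℝ) * B * (i * δ) := h5.trans h6
  exact le_of_mul_le_mul_left h7 (by positivity)

theorem tau_bound (k : ℕ) (hk : 1 ≤ k) : (2 : ℝ) ^ (k - 1) * (3 / 4) ^ (8 * k) ≤ 1 / (2 * k) := by
  obtain ⟨k', rfl⟩ : ∃ k', k = k' + 1 := ⟨k - 1, by omega⟩
  have h1 : (2 : ℝ) ^ (k' + 1 - 1) * (3 / 4) ^ (8 * (k' + 1)) ≤ (1 / 2) * (1 / 4) ^ (k' + 1) := by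
    have e1 : (2 : ℝ) ^ (k' + 1 - 1) = (1 / 2) * 2 ^ (k' + 1) := by
      rw [Nat.add_sub_cancel, pow_succ]; ring
    rw [e1, pow_mul, mul_assoc, ← mul_pow]
    gcongr
    norm_num
  refine h1.trans ?_
  have h2 : ((k' : ℝ) + 1) ≤ 4 ^ (k' + 1) := by
    have : k' + 1 < 4 ^ (k' + 1) := Nat.lt_pow_self (by norm_num)
    exact_mod_cast this.le
  have h3 : (1 / 4 : ℝ) ^ (k' + 1) = 1 / 4 ^ (k' + 1) := by rw [one_div_pow]
  rw [h3]
  push_cast
  rw [div_mul_div_comm, one_mul]
  apply one_div_le_one_div_of_le (by positivity)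
  gcongr

/-- `1 - π(F_{k-j}) ≥ log k / (4^{j+1} k^j)` for all `j ≥ 2` and `k > j`. -/
theorem co_lower (j k : ℕ) (hj : 2 ≤ j) (hk : j < k) :
    Real.log k / (4 ^ (j + 1) * (k : ℝ) ^ j) ≤ 1 - turanDensity k (k - j) := by
  obtain ⟨i, hi⟩ : ∃ i, i = k - j := ⟨_, rfl⟩
  have hij : i + j = k := by omega
  have hi1 : 1 ≤ i := by omega
  obtain ⟨n, hn⟩ : ∃ n, n = 8 * k + i := ⟨_, rfl⟩
  obtain ⟨H, hH, hF, hHc⟩ := exists_ex n (k := k) (i := i) (by omega) hi1
  have hd := density_le n k i (by omega)
  have c1 : (0 : ℝ) < (n.choose k : ℝ) := by exact_mod_cast Nat.choose_pos (by omega : k ≤ n)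
  set δ : ℝ := 1 - (ex n k i : ℝ) / (n.choose k : ℝ) with hδ
  have hδ1 : δ * (n.choose k : ℝ) = (n.choose k : ℝ) - H.card := by
    rw [hδ, hHc]; field_simp
  have hm := main_ineq hij hi1 (by omega) hn hH hF hδ1
  rw [← hi]
  have hgoal : Real.log k / (4 ^ (j + 1) * (k : ℝ) ^ j) ≤ δ := by
    by_contra hcon
    push Not at hcon
    have hkR : (3 : ℝ) ≤ k := by
      have : 3 ≤ k := by omega
      exact_mod_cast this
    have hk0 : (0 : ℝ) < k := by linarith
    have hlog : 0 < Real.log k := Real.log_pos (by linarith)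
    have hδ0 : 0 ≤ δ := by
      have : (H.card : ℝ) ≤ n.choose k := by
        have h' : H ⊆ (univ : Finset (Fin n)).powersetCard k :=
          fun A hA => mem_powersetCard.mpr ⟨subset_univ _, hH A hA⟩
        have := Finset.card_le_card h'
        rw [Finset.card_powersetCard, card_univ, Fintype.card_fin] at this
        exact_mod_cast this
      by_contra hneg
      push Not at hneg
      nlinarith
    have hpk : (0 : ℝ) < (k : ℝ) ^ j := by positivity
    -- the exponent
    have e1 : (2 / 2 ^ j) * (δ * ((8 * k).choose j : ℝ)) ≤ 1 / 2 * Real.log k := by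
      have e2 : ((8 * k).choose j : ℝ) ≤ (8 * (k : ℝ)) ^ j := by
        have := Nat.choose_le_pow (8 * k) j
        exact_mod_cast this
      calc (2 / 2 ^ j) * (δ * ((8 * k).choose j : ℝ)) ≤ (2 / 2 ^ j) * (δ * (8 * (k : ℝ)) ^ j) := by gcongr
        _ ≤ (2 / 2 ^ j) * ((Real.log k / (4 ^ (j + 1) * (k : ℝ) ^ j)) * (8 * (k : ℝ)) ^ j) := by
            gcongr
        _ = 1 / 2 * Real.log k := by
            have e8 : (8 * (k : ℝ)) ^ j = 2 ^ j * 4 ^ j * (k : ℝ) ^ j := by
              rw [← mul_pow, ← mul_pow]; norm_num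
            rw [e8, pow_succ]
            field_simp
            ring
    have e3 : Real.exp (-(1 / 2 * Real.log k)) ≤ Real.exp (-((2 / 2 ^ j) * (δ * ((8 * k).choose j : ℝ)))) := by
      apply Real.exp_le_exp.mpr; linarith
    have e4 : Real.exp (-(1 / 2 * Real.log k)) = 1 / Real.sqrt k := by
      rw [Real.exp_neg, inv_eq_one_div]
      congr 1
      rw [Real.sqrt_eq_rpow, Real.rpow_def_of_pos hk0]
      congr 1; ring
    rw [e4] at e3
    have e5 := tau_bound k (by omega)
    have hs0 : 0 < Real.sqrt k := Real.sqrt_pos.mpr hk0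
    have hs2 : Real.sqrt k * Real.sqrt k = k := Real.mul_self_sqrt hk0.le
    have hs1 : 1 ≤ Real.sqrt k := by
      rw [show (1 : ℝ) = Real.sqrt 1 by simp]; exact Real.sqrt_le_sqrt (by linarith)
    have e6 : (i : ℝ) * δ ≤ 1 / (32 * Real.sqrt k) := by
      have hik : (i : ℝ) ≤ k := by exact_mod_cast (by omega : i ≤ k)
      have hlogle : Real.log k ≤ 2 * Real.sqrt k := by
        have h' := Real.log_le_sub_one_of_pos hs0
        have h'' : Real.log k = 2 * Real.log (Real.sqrt k) := by
          conv_lhs => rw [← hs2]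
          rw [Real.log_mul hs0.ne' hs0.ne']; ring
        rw [h'']; linarith
      have hk2 : (k : ℝ) ^ 2 ≤ (k : ℝ) ^ j := pow_le_pow_right₀ (by linarith) hj
      have h4 : (64 : ℝ) ≤ 4 ^ (j + 1) := by
        calc (64 : ℝ) = 4 ^ 3 := by norm_num
          _ ≤ 4 ^ (j + 1) := pow_le_pow_right₀ (by norm_num) (by omega)
      calc (i : ℝ) * δ ≤ k * (Real.log k / (4 ^ (j + 1) * (k : ℝ) ^ j)) := by
            gcongr
        _ ≤ k * (2 * Real.sqrt k / (64 * (k : ℝ) ^ 2)) := by gcongr
        _ = 1 / (32 * Real.sqrt k) := by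
            have : (k : ℝ) ^ 2 = k * (Real.sqrt k * Real.sqrt k) := by rw [hs2]; ring
            rw [this]; field_simp; norm_num
    have e7 : 1 / (2 * (k : ℝ)) ≤ 1 / (2 * Real.sqrt k) := by
      apply one_div_le_one_div_of_le (by positivity)
      nlinarith
    have e8 : 1 / Real.sqrt k ≤ 1 / (2 * Real.sqrt k) + 1 / (32 * Real.sqrt k) := by linarith
    have e9 : 1 / (2 * Real.sqrt k) + 1 / (32 * Real.sqrt k) = (17 / 32) * (1 / Real.sqrt k) := by
      field_simp; norm_num
    rw [e9] at e8
    have : 0 < 1 / Real.sqrt k := by positivity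
    linarith
  have : δ ≤ 1 - turanDensity k i := by rw [hδ]; linarith
  linarith

end Pool.Agent.MP7badbe
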