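import Pool.Agent.MP7badbe.Basic

/-!
# Upper bound `1 - π(F_{k-j}) = O(log k / k^j)` for `j ≥ 1`

Random labels: with `J = j - 1`, a label of type `a < J` carries a digit `x` and has value `x b^a`
in `ZMod l`; a label of type `J` has a random value in `ZMod l`, where `l` is about `k^j / log k`.
A `(k-1)`-set is rich if the sums of the values over its `j`-subsets cover `ZMod l`.  The family
consists of the `k`-sets with a prescribed sum and of the `k`-sets containing a `(k-1)`-set that is
not rich.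
-/

open Finset

namespace Pool.Agent.MP7badbe

theorem restrict_count {α β ι : Type*} [Fintype α] [DecidableEq α] [Fintype β] [DecidableEq β]
    [Fintype ι] [DecidableEq ι] (e : ι → α) (he : Function.Injective e)
    (Q : (ι → β) → Prop) [DecidablePred Q] [DecidablePred fun f : α → β => Q (f ∘ e)] :
    (univ.filter (fun f : α → β => Q (f ∘ e))).card * Fintype.card β ^ Fintype.card ι
      = (univ.filter Q).card * Fintype.card β ^ Fintype.card α := by
  classical
  have h1 : Fintype.card β ^ Fintype.card ι = (univ : Finset (ι → β)).card := by simp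
  have h2 : Fintype.card β ^ Fintype.card α = (univ : Finset (α → β)).card := by simp
  rw [h1, h2, ← Finset.card_product, ← Finset.card_product]
  refine Finset.card_nbij' (fun x => (x.1 ∘ e, Function.extend e x.2 x.1))
    (fun y => (Function.extend e y.1 y.2, y.2 ∘ e)) ?_ ?_ ?_ ?_
  · rintro ⟨f, h⟩ hx
    simpa using hx
  · rintro ⟨g, f⟩ hx
    simp only [coe_product, coe_filter, mem_univ, true_and, coe_univ, Set.mem_prod,
      Set.mem_ofPred_eq, Set.mem_univ, and_true] at hx ⊢
    have : Function.extend e g f ∘ e = g := by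
      funext i; simp [he.extend_apply]
    rw [this]; exact hx
  · rintro ⟨f, h⟩ _
    simp only [Prod.mk.injEq]
    refine ⟨?_, ?_⟩
    · funext a
      by_cases ha : ∃ i, e i = a
      · obtain ⟨i, rfl⟩ := ha
        simp [he.extend_apply]
      · simp [Function.extend_apply' _ _ _ ha]
    · funext i; simp [he.extend_apply]
  · rintro ⟨g, f⟩ _
    simp only [Prod.mk.injEq]
    refine ⟨?_, ?_⟩
    · funext i; simp [he.extend_apply]
    · funext a
      by_cases ha : ∃ i, e i = a
      · obtain ⟨i, rfl⟩ := ha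
        simp [he.extend_apply]
      · simp [Function.extend_apply' _ _ _ ha]

/-! ### Random labels with digits -/

/-- labels: a type, a digit and a residue -/
abbrev Lab (J b l : ℕ) := Fin (J + 1) × Fin b × ZMod l

/-- the value of a label: digit times a power of `b` for the types below `J`, the residue for the
last type -/
def val {J b l : ℕ} (u : Lab J b l) : ZMod l :=
  if u.1.val < J then ((u.2.1.val * b ^ u.1.val : ℕ) : ZMod l) else u.2.2

/-- every residue is the sum of the values of exactly `J+1` points -/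
def Rich {ι : Type} {J b l : ℕ} (w : ι → Lab J b l) : Prop :=
  ∀ c : ZMod l, ∃ R : Finset ι, R.card = J + 1 ∧ ∑ x ∈ R, val (w x) = c

/-- digits occurring with type `a` -/
def dig {t J b l : ℕ} (w : Fin t → Lab J b l) (a : Fin J) : Finset (Fin b) :=
  univ.filter (fun x => ∃ v, (w v).1 = a.castSucc ∧ (w v).2.1 = x)

/-- sums obtained from the first `J` types -/
def sums {t J b l : ℕ} (w : Fin t → Lab J b l) : Finset (ZMod l) :=
  (Fintype.piFinset (dig w)).image (fun x => ((∑ a, (x a).val * b ^ a.val : ℕ) : ZMod l))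

theorem sums_card {t J b l : ℕ} (hl : b ^ J ≤ l) (w : Fin t → Lab J b l) :
    (sums w).card = ∏ a, (dig w a).card := by
  rw [sums, Finset.card_image_of_injective, Fintype.card_piFinset]
  intro x y hxy
  simp only at hxy
  rw [← finFunctionFinEquiv_apply, ← finFunctionFinEquiv_apply] at hxy
  rw [ZMod.natCast_eq_natCast_iff', Nat.mod_eq_of_lt (lt_of_lt_of_le (Fin.is_lt _) hl),
    Nat.mod_eq_of_lt (lt_of_lt_of_le (Fin.is_lt _) hl)] at hxy
  exact finFunctionFinEquiv.injective (Fin.ext hxy)

theorem rich_of {t J b l : ℕ} (w₁ w₂ : Fin t → Lab J b l)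
    (h : ∀ c, ∃ v, (w₂ v).1 = Fin.last J ∧ c - (w₂ v).2.2 ∈ sums w₁) :
    Rich (Sum.elim w₁ w₂) := by
  classical
  intro c
  obtain ⟨v, hv1, hv2⟩ := h c
  rw [sums, mem_image] at hv2
  obtain ⟨x, hx, hxe⟩ := hv2
  rw [Fintype.mem_piFinset] at hx
  have hx' : ∀ a, ∃ z, (w₁ z).1 = a.castSucc ∧ (w₁ z).2.1 = x a := by
    intro a
    have := hx a
    rw [dig, mem_filter] at this
    exact this.2
  choose z hz1 hz2 using hx'
  let f : Fin (J + 1) → Fin t ⊕ Fin t := Fin.snoc (fun a => Sum.inl (z a)) (Sum.inr v)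
  have hf1 : ∀ a : Fin J, f a.castSucc = Sum.inl (z a) := fun a => by
    simp only [f, Fin.snoc_castSucc]
  have hf2 : f (Fin.last J) = Sum.inr v := by simp only [f, Fin.snoc_last]
  have hinj : Function.Injective f := by
    intro a a' haa
    induction a using Fin.lastCases with
    | last =>
      induction a' using Fin.lastCases with
      | last => rfl
      | cast a' => rw [hf2, hf1] at haa; cases haa
    | cast a =>
      induction a' using Fin.lastCases with
      | last => rw [hf2, hf1] at haa; cases haa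
      | cast a' =>
        rw [hf1, hf1] at haa
        have h1 : z a = z a' := Sum.inl.inj haa
        have h2 := hz1 a
        rw [h1, hz1 a'] at h2
        exact h2.symm
  refine ⟨univ.map ⟨f, hinj⟩, by simp, ?_⟩
  rw [Finset.sum_map]
  simp only [Function.Embedding.coeFn_mk]
  rw [Fin.sum_univ_castSucc, hf2]
  have e1 : ∀ a : Fin J, val (Sum.elim w₁ w₂ (f a.castSucc)) = (((x a).val * b ^ a.val : ℕ) : ZMod l) := by
    intro a
    rw [hf1, Sum.elim_inl, val, if_pos]
    · rw [hz1, hz2]; rfl
    · rw [hz1]; exact a.is_lt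
  have e2 : val (Sum.elim w₁ w₂ (Sum.inr v)) = (w₂ v).2.2 := by
    rw [Sum.elim_inr, val, if_neg]
    rw [hv1]; simp
  rw [Finset.sum_congr rfl (fun a _ => e1 a), e2, ← Nat.cast_sum, hxe]
  ring

open Classical in
theorem bad_digits {t J b l : ℕ} [NeZero l] (hb : 1 ≤ b) (a : Fin J) :
    ((univ.filter (fun w : Fin t → Lab J b l => 2 * (dig w a).card ≤ b)).card : ℝ)
      ≤ 2 ^ b * (((J : ℝ) + 1) * b * l * (1 - 1 / (2 * ((J : ℝ) + 1)))) ^ t := by
  set 𝒟 : Finset (Finset (Fin b)) := univ.filter (fun D => 2 * D.card ≤ b) with h𝒟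
  let F : Finset (Fin b) → Finset (Lab J b l) := fun D =>
    univ \ (({a.castSucc} : Finset (Fin (J + 1))) ×ˢ (Dᶜ ×ˢ (univ : Finset (ZMod l))))
  have h1 : (univ.filter (fun w : Fin t → Lab J b l => 2 * (dig w a).card ≤ b)) ⊆
      𝒟.biUnion (fun D => Fintype.piFinset (fun _ : Fin t => F D)) := by
    intro w hw
    rw [mem_filter] at hw
    rw [mem_biUnion]
    refine ⟨dig w a, by rw [h𝒟, mem_filter]; exact ⟨mem_univ _, hw.2⟩, ?_⟩
    rw [Fintype.mem_piFinset]
    intro v
    simp only [F, mem_sdiff, mem_univ, true_and, mem_product, mem_singleton, mem_compl, and_true,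
      not_and, not_not]
    intro hv
    rw [dig, mem_filter]
    exact ⟨mem_univ _, v, hv, rfl⟩
  have h2 : ∀ D ∈ 𝒟, ((F D).card : ℝ) ≤ ((J : ℝ) + 1) * b * l * (1 - 1 / (2 * ((J : ℝ) + 1))) := by
    intro D hD
    rw [h𝒟, mem_filter] at hD
    have hDb : D.card ≤ b := by
      have := Finset.card_le_univ D; simpa using this
    have e1 : (F D).card + (b - D.card) * l = (J + 1) * (b * l) := by
      have := Finset.card_sdiff_add_card_eq_card (s := (({a.castSucc} : Finset (Fin (J + 1))) ×ˢ (Dᶜ ×ˢ (univ : Finset (ZMod l)))))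
        (t := (univ : Finset (Lab J b l))) (subset_univ _)
      have hU : (univ : Finset (Lab J b l)).card = (J + 1) * (b * l) := by simp [ZMod.card]
      rw [Finset.card_product, Finset.card_product, Finset.card_compl, hU, Finset.card_singleton,
        one_mul, Finset.card_univ (α := ZMod l), ZMod.card, Fintype.card_fin] at this
      exact this
    have e2 : ((F D).card : ℝ) = (J + 1) * (b * l) - (b - D.card) * l := by
      have := congrArg (Nat.cast : ℕ → ℝ) e1
      push_cast [Nat.cast_sub hDb] at this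
      linarith
    have e3 : (2 : ℝ) * D.card ≤ b := by exact_mod_cast hD.2
    have hl0 : (0 : ℝ) ≤ l := Nat.cast_nonneg _
    have hJ : (0 : ℝ) < (J : ℝ) + 1 := by positivity
    have e4 : ((J : ℝ) + 1) * b * l * (1 - 1 / (2 * ((J : ℝ) + 1))) = (J + 1) * (b * l) - b / 2 * l := by
      field_simp
    rw [e2, e4]
    nlinarith
  have h3 : ((univ.filter (fun w : Fin t → Lab J b l => 2 * (dig w a).card ≤ b)).card : ℝ)
      ≤ ∑ D ∈ 𝒟, ((F D).card : ℝ) ^ t := by
    have := (Finset.card_le_card h1).trans Finset.card_biUnion_le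
    refine le_trans (Nat.cast_le.mpr this) ?_
    push_cast
    refine Finset.sum_le_sum fun D _ => ?_
    rw [Fintype.card_piFinset]
    simp
  refine h3.trans ?_
  have h4 : ((𝒟.card : ℕ) : ℝ) ≤ 2 ^ b := by
    have : 𝒟.card ≤ 2 ^ b := by
      calc 𝒟.card ≤ (univ : Finset (Finset (Fin b))).card := Finset.card_le_card (Finset.subset_univ _)
        _ = 2 ^ b := by simp
    exact_mod_cast this
  calc ∑ D ∈ 𝒟, ((F D).card : ℝ) ^ t
      ≤ ∑ D ∈ 𝒟, (((J : ℝ) + 1) * b * l * (1 - 1 / (2 * ((J : ℝ) + 1)))) ^ t :=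
        Finset.sum_le_sum fun D hD => pow_le_pow_left₀ (by positivity) (h2 D hD) t
    _ = (𝒟.card : ℝ) * (((J : ℝ) + 1) * b * l * (1 - 1 / (2 * ((J : ℝ) + 1)))) ^ t := by
        rw [Finset.sum_const, nsmul_eq_mul]
    _ ≤ _ := by
        have : (0 : ℝ) ≤ 1 - 1 / (2 * ((J : ℝ) + 1)) := by
          rw [sub_nonneg, div_le_one (by positivity)]
          have : (0 : ℝ) ≤ J := Nat.cast_nonneg _
          linarith
        gcongr

open Classical in
theorem bad_last {t J b l : ℕ} [NeZero l] (hb : 1 ≤ b) (hl : b ^ J ≤ l) (w₁ : Fin t → Lab J b l)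
    (hw : ∀ a, b < 2 * (dig w₁ a).card) :
    ((univ.filter (fun w₂ : Fin t → Lab J b l => ∃ c, ∀ v, ¬ ((w₂ v).1 = Fin.last J ∧
      c - (w₂ v).2.2 ∈ sums w₁))).card : ℝ)
      ≤ l * (((J : ℝ) + 1) * b * l * (1 - ((b : ℝ) / 2) ^ J / (((J : ℝ) + 1) * l))) ^ t := by
  have hlpos : (0 : ℝ) < l := by
    have : 0 < l := Nat.pos_of_ne_zero (NeZero.ne l)
    exact_mod_cast this
  let Y : ZMod l → Finset (ZMod l) := fun c => (sums w₁).image (fun s => c - s)
  let F : ZMod l → Finset (Lab J b l) := fun c =>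
    univ \ (({Fin.last J} : Finset (Fin (J + 1))) ×ˢ ((univ : Finset (Fin b)) ×ˢ Y c))
  have h1 : (univ.filter (fun w₂ : Fin t → Lab J b l => ∃ c, ∀ v, ¬ ((w₂ v).1 = Fin.last J ∧
      c - (w₂ v).2.2 ∈ sums w₁))) ⊆
      (univ : Finset (ZMod l)).biUnion (fun c => Fintype.piFinset (fun _ : Fin t => F c)) := by
    intro w₂ hw2
    rw [mem_filter] at hw2
    obtain ⟨c, hc⟩ := hw2.2
    rw [mem_biUnion]
    refine ⟨c, mem_univ _, ?_⟩
    rw [Fintype.mem_piFinset]
    intro v
    simp only [F, mem_sdiff, mem_univ, true_and, mem_product, mem_singleton, not_and]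
    intro hv hY
    rw [mem_image] at hY
    obtain ⟨s, hs, hse⟩ := hY
    apply hc v
    refine ⟨hv, ?_⟩
    rw [← hse, sub_sub_cancel]; exact hs
  have h2 : ∀ c, ((F c).card : ℝ) ≤ ((J : ℝ) + 1) * b * l * (1 - ((b : ℝ) / 2) ^ J / (((J : ℝ) + 1) * l)) := by
    intro c
    have hYc : (Y c).card = (sums w₁).card := by
      apply Finset.card_image_of_injective
      intro s s' h
      simpa using h
    have e1 : (F c).card + b * (sums w₁).card = (J + 1) * (b * l) := by
      have := Finset.card_sdiff_add_card_eq_card (s := (({Fin.last J} : Finset (Fin (J + 1))) ×ˢ ((univ : Finset (Fin b)) ×ˢ Y c)))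
        (t := (univ : Finset (Lab J b l))) (subset_univ _)
      have hU : (univ : Finset (Lab J b l)).card = (J + 1) * (b * l) := by simp [ZMod.card]
      rw [Finset.card_product, Finset.card_product, hYc, hU, Finset.card_singleton,
        one_mul, Finset.card_univ (α := Fin b), Fintype.card_fin] at this
      exact this
    have e2 : ((F c).card : ℝ) = (J + 1) * (b * l) - b * (sums w₁).card := by
      have := congrArg (Nat.cast : ℕ → ℝ) e1
      push_cast at this
      linarith
    have e3 : ((b : ℝ) / 2) ^ J ≤ ((sums w₁).card : ℝ) := by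
      rw [sums_card hl]
      push_cast
      calc ((b : ℝ) / 2) ^ J = ∏ a : Fin J, ((b : ℝ) / 2) := by
            rw [Finset.prod_const, card_univ, Fintype.card_fin]
        _ ≤ ∏ a : Fin J, ((dig w₁ a).card : ℝ) := by
          refine Finset.prod_le_prod (fun _ _ => by positivity) fun a _ => ?_
          have : (b : ℝ) < 2 * (dig w₁ a).card := by exact_mod_cast hw a
          linarith
    have hJ : (0 : ℝ) < (J : ℝ) + 1 := by positivity
    have e4 : ∀ s0 : ℝ, ((J : ℝ) + 1) * b * l * (1 - s0 / (((J : ℝ) + 1) * l))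
        = (J + 1) * (b * l) - b * s0 := by
      intro s0; field_simp
    rw [e2, e4]
    have : (b : ℝ) * ((b : ℝ) / 2) ^ J ≤ b * (sums w₁).card := by gcongr
    linarith
  have h3 := (Finset.card_le_card h1).trans Finset.card_biUnion_le
  calc ((univ.filter (fun w₂ : Fin t → Lab J b l => ∃ c, ∀ v, ¬ ((w₂ v).1 = Fin.last J ∧
      c - (w₂ v).2.2 ∈ sums w₁))).card : ℝ)
      ≤ ∑ c : ZMod l, ((F c).card : ℝ) ^ t := by
        refine le_trans (Nat.cast_le.mpr h3) ?_
        push_cast
        refine Finset.sum_le_sum fun c _ => ?_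
        rw [Fintype.card_piFinset]
        simp
    _ ≤ ∑ c : ZMod l, (((J : ℝ) + 1) * b * l * (1 - ((b : ℝ) / 2) ^ J / (((J : ℝ) + 1) * l))) ^ t :=
        Finset.sum_le_sum fun c _ => pow_le_pow_left₀ (by positivity) (h2 c) t
    _ = _ := by
        rw [Finset.sum_const, card_univ, ZMod.card, nsmul_eq_mul]

/-- the probability that the labels of `2t` points are not rich -/
noncomputable def eps (J b l t : ℕ) : ℝ :=
  J * (2 ^ b * (1 - 1 / (2 * ((J : ℝ) + 1))) ^ t)
    + l * (1 - ((b : ℝ) / 2) ^ J / (((J : ℝ) + 1) * l)) ^ t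

open Classical in
theorem notRich_count {t J b l : ℕ} [NeZero l] (hb : 1 ≤ b) (hl : b ^ J ≤ l) :
    ((univ.filter (fun w : Fin t ⊕ Fin t → Lab J b l => ¬ Rich w)).card : ℝ)
      ≤ eps J b l t * (((J : ℝ) + 1) * b * l) ^ (2 * t) := by
  set P : ℝ := ((J : ℝ) + 1) * b * l with hP
  have hcard : ((Fintype.card (Fin t → Lab J b l) : ℕ) : ℝ) = P ^ t := by
    have : Fintype.card (Fin t → Lab J b l) = ((J + 1) * (b * l)) ^ t := by
      simp [ZMod.card]
    rw [this, hP]; push_cast; ring
  have hlpos : (0 : ℝ) < l := by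
    have : 0 < l := Nat.pos_of_ne_zero (NeZero.ne l)
    exact_mod_cast this
  have hblR : ((b : ℝ)) ^ J ≤ l := by exact_mod_cast hl
  have hfac2 : (0 : ℝ) ≤ 1 - ((b : ℝ) / 2) ^ J / (((J : ℝ) + 1) * l) := by
    rw [sub_nonneg, div_le_one (by positivity)]
    calc ((b : ℝ) / 2) ^ J ≤ (b : ℝ) ^ J := by gcongr; linarith [show (0:ℝ) ≤ b from Nat.cast_nonneg _]
      _ ≤ l := hblR
      _ ≤ ((J : ℝ) + 1) * l := by nlinarith [show (0:ℝ) ≤ J from Nat.cast_nonneg _]
  set N1 : Finset (Fin t → Lab J b l) := univ.filter (fun w => ∃ a, 2 * (dig w a).card ≤ b) with hN1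
  let Z : (Fin t → Lab J b l) → Finset (Fin t → Lab J b l) := fun w₁ =>
    univ.filter (fun w₂ : Fin t → Lab J b l => ∃ c, ∀ v, ¬ ((w₂ v).1 = Fin.last J ∧
      c - (w₂ v).2.2 ∈ sums w₁))
  set N2 : Finset ((_ : Fin t → Lab J b l) × (Fin t → Lab J b l)) :=
    (univ.filter (fun w => ∀ a, b < 2 * (dig w a).card)).sigma Z with hN2
  set N3 : Finset ((_ : Fin t → Lab J b l) × (Fin t → Lab J b l)) := N1.sigma (fun _ => univ) with hN3
  have h1 : (univ.filter (fun w : Fin t ⊕ Fin t → Lab J b l => ¬ Rich w)).card ≤ (N3 ∪ N2).card := by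
    refine Finset.card_le_card_of_injOn (fun w => ⟨w ∘ Sum.inl, w ∘ Sum.inr⟩) ?_ ?_
    · intro w hw
      rw [mem_coe, mem_filter] at hw
      rw [mem_coe, mem_union]
      by_cases hg : ∃ a, 2 * (dig (w ∘ Sum.inl) a).card ≤ b
      · left
        rw [hN3, mem_sigma]
        exact ⟨by rw [hN1, mem_filter]; exact ⟨mem_univ _, hg⟩, mem_univ _⟩
      · right
        push Not at hg
        rw [hN2, mem_sigma]
        refine ⟨by rw [mem_filter]; exact ⟨mem_univ _, hg⟩, ?_⟩
        simp only [Z]
        rw [mem_filter]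
        refine ⟨mem_univ _, ?_⟩
        by_contra hcon
        push Not at hcon
        apply hw.2
        have := rich_of (w ∘ Sum.inl) (w ∘ Sum.inr) hcon
        rwa [Sum.elim_comp_inl_inr] at this
    · intro w _ w' _ h
      simp only [Sigma.mk.injEq, heq_eq_eq] at h
      rw [← Sum.elim_comp_inl_inr w, ← Sum.elim_comp_inl_inr w', h.1, h.2]
  have h2 : (N3.card : ℝ) ≤ (J * (2 ^ b * (P * (1 - 1 / (2 * ((J : ℝ) + 1)))) ^ t)) * P ^ t := by
    rw [hN3, Finset.card_sigma]
    simp only [Finset.sum_const, card_univ, smul_eq_mul]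
    push_cast [hcard]
    have e1 : (N1.card : ℝ) ≤ J * (2 ^ b * (P * (1 - 1 / (2 * ((J : ℝ) + 1)))) ^ t) := by
      have e2 : N1 ⊆ (univ : Finset (Fin J)).biUnion (fun a =>
          univ.filter (fun w : Fin t → Lab J b l => 2 * (dig w a).card ≤ b)) := by
        intro w hw
        rw [hN1, mem_filter] at hw
        obtain ⟨a, ha⟩ := hw.2
        rw [mem_biUnion]
        exact ⟨a, mem_univ _, by rw [mem_filter]; exact ⟨mem_univ _, ha⟩⟩
      have e3 := (Finset.card_le_card e2).trans Finset.card_biUnion_le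
      have e4 : (N1.card : ℝ) ≤ ∑ a : Fin J, ((univ.filter (fun w : Fin t → Lab J b l => 2 * (dig w a).card ≤ b)).card : ℝ) := by
        exact_mod_cast e3
      refine e4.trans ?_
      refine (Finset.sum_le_sum fun a _ => bad_digits hb a).trans ?_
      rw [Finset.sum_const, card_univ, Fintype.card_fin, nsmul_eq_mul]
    have hPt : (0 : ℝ) ≤ P ^ t := by positivity
    exact mul_le_mul_of_nonneg_right e1 hPt
  have h3 : (N2.card : ℝ) ≤ P ^ t * (l * (P * (1 - ((b : ℝ) / 2) ^ J / (((J : ℝ) + 1) * l))) ^ t) := by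
    rw [hN2, Finset.card_sigma]
    push_cast
    refine (Finset.sum_le_sum fun w₁ hw => bad_last hb hl w₁ (mem_filter.mp hw).2).trans ?_
    rw [Finset.sum_const, nsmul_eq_mul]
    have e1 : ((univ.filter (fun w : Fin t → Lab J b l => ∀ a, b < 2 * (dig w a).card)).card : ℝ) ≤ P ^ t := by
      rw [← hcard]
      exact_mod_cast Finset.card_le_univ _
    have : (0 : ℝ) ≤ (l * (P * (1 - ((b : ℝ) / 2) ^ J / (((J : ℝ) + 1) * l))) ^ t) := by
      have hP0 : (0 : ℝ) ≤ P := by positivity
      positivity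
    exact mul_le_mul_of_nonneg_right e1 this
  have h4 : ((univ.filter (fun w : Fin t ⊕ Fin t → Lab J b l => ¬ Rich w)).card : ℝ)
      ≤ N3.card + N2.card := by
    exact_mod_cast h1.trans (Finset.card_union_le _ _)
  refine h4.trans ((add_le_add h2 h3).trans (le_of_eq ?_))
  rw [eps, mul_pow P, mul_pow P, show 2 * t = t + t by ring, pow_add]
  ring

/-- `T` is bad for the labelling `u` if no injection of `2t` indices into `T` gives rich labels -/
def Bad {n t J b l : ℕ} (T : Finset (Fin n)) (u : Fin n → Lab J b l) : Prop :=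
  ∀ e : Fin t ⊕ Fin t → Fin n, Function.Injective e → (∀ x, e x ∈ T) → ¬ Rich (u ∘ e)

open Classical in
theorem bad_count {n t J b l : ℕ} [NeZero l] (hb : 1 ≤ b) (hl : b ^ J ≤ l) (T : Finset (Fin n))
    (hT : 2 * t ≤ T.card) :
    ((univ.filter (fun u : Fin n → Lab J b l => Bad (t := t) T u)).card : ℝ)
      ≤ eps J b l t * (((J : ℝ) + 1) * b * l) ^ n := by
  let e : Fin t ⊕ Fin t → Fin n := fun x =>
    T.orderEmbOfFin rfl (Fin.castLE (by omega : t + t ≤ T.card) (finSumFinEquiv x))
  have he : Function.Injective e := by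
    intro x y hxy
    have := (T.orderEmbOfFin rfl).injective hxy
    exact finSumFinEquiv.injective (Fin.castLE_injective _ this)
  have heT : ∀ x, e x ∈ T := fun x => Finset.orderEmbOfFin_mem T rfl _
  have h1 : (univ.filter (fun u : Fin n → Lab J b l => Bad (t := t) T u)) ⊆
      univ.filter (fun u : Fin n → Lab J b l => ¬ Rich (u ∘ e)) := by
    intro u hu
    rw [mem_filter] at hu ⊢
    exact ⟨mem_univ _, hu.2 e he heT⟩
  have h2 := restrict_count (α := Fin n) (β := Lab J b l) (ι := Fin t ⊕ Fin t) e he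
    (fun w => ¬ Rich w)
  have hcU : Fintype.card (Lab J b l) = (J + 1) * (b * l) := by simp [ZMod.card]
  have hcι : Fintype.card (Fin t ⊕ Fin t) = 2 * t := by simp; ring
  rw [hcU, hcι, Fintype.card_fin] at h2
  have h3 := notRich_count (t := t) hb hl (J := J)
  set P : ℝ := ((J : ℝ) + 1) * b * l with hP
  have hlpos : (0 : ℝ) < l := by
    have : 0 < l := Nat.pos_of_ne_zero (NeZero.ne l)
    exact_mod_cast this
  have hbpos : (0 : ℝ) < b := by exact_mod_cast hb
  have hPpos : 0 < P := by positivity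
  have h2R : ((univ.filter (fun u : Fin n → Lab J b l => ¬ Rich (u ∘ e))).card : ℝ) * P ^ (2 * t)
      = ((univ.filter (fun w : Fin t ⊕ Fin t → Lab J b l => ¬ Rich w)).card : ℝ) * P ^ n := by
    have e1 : P = (((J + 1) * (b * l) : ℕ) : ℝ) := by rw [hP]; push_cast; ring
    rw [e1]; exact_mod_cast h2
  have h4 : ((univ.filter (fun u : Fin n → Lab J b l => ¬ Rich (u ∘ e))).card : ℝ)
      ≤ eps J b l t * P ^ n := by
    have hp : 0 < P ^ (2 * t) := by positivity
    apply le_of_mul_le_mul_right _ hp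
    rw [h2R]
    calc ((univ.filter (fun w : Fin t ⊕ Fin t → Lab J b l => ¬ Rich w)).card : ℝ) * P ^ n
        ≤ (eps J b l t * P ^ (2 * t)) * P ^ n := by gcongr
      _ = eps J b l t * P ^ n * P ^ (2 * t) := by ring
  refine le_trans ?_ h4
  exact_mod_cast Finset.card_le_card h1

/-- the `k`-set `A` contains a bad `(k-1)`-set -/
def HasBad {n J b l : ℕ} (k t : ℕ) (A : Finset (Fin n)) (u : Fin n → Lab J b l) : Prop :=
  ∃ T ∈ A.powersetCard (k - 1), Bad (t := t) T u

/-- The parametric upper bound for `1 - π(F_{k-j})`, `j = J + 1`. -/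
theorem upper_param (J b l t k : ℕ) [NeZero l] (hb : 1 ≤ b) (hl : b ^ J ≤ l) (ht : 2 * t + 1 ≤ k)
    (hk : J + 1 < k) :
    1 - turanDensity k (k - (J + 1)) ≤ 1 / l + k * eps J b l t := by
  classical
  obtain ⟨i, hi⟩ : ∃ i, i = k - (J + 1) := ⟨_, rfl⟩
  rw [← hi]
  have hlpos : (0 : ℝ) < l := by
    have : 0 < l := Nat.pos_of_ne_zero (NeZero.ne l)
    exact_mod_cast this
  have hbpos : (0 : ℝ) < b := by exact_mod_cast hb
  set P : ℝ := ((J : ℝ) + 1) * b * l with hP
  have hPpos : 0 < P := by positivity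
  have main : 1 - (1 / (l : ℝ) + k * eps J b l t) ≤ turanDensity k i := by
    apply le_density
    intro n
    let Ω := (Fin n → Lab J b l) × ZMod l
    let G1 : Ω → Finset (Finset (Fin n)) := fun p =>
      ((univ : Finset (Fin n)).powersetCard k).filter (fun A => ∑ v ∈ A, val (p.1 v) = p.2)
    let G2 : Ω → Finset (Finset (Fin n)) := fun p =>
      ((univ : Finset (Fin n)).powersetCard k).filter
        (fun A => HasBad k t A p.1)
    have hcU : ((Fintype.card (Fin n → Lab J b l) : ℕ) : ℝ) = P ^ n := by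
      have : Fintype.card (Fin n → Lab J b l) = ((J + 1) * (b * l)) ^ n := by
        simp [ZMod.card]
      rw [this, hP]; push_cast; ring
    have b1 : ∑ p : Ω, ((G1 p).card : ℝ) = P ^ n * (n.choose k : ℝ) := by
      rw [Fintype.sum_prod_type]
      have : ∀ u : Fin n → Lab J b l, ∑ s : ZMod l, ((G1 (u, s)).card : ℝ) = (n.choose k : ℝ) := by
        intro u
        have e1 := Finset.card_eq_sum_card_fiberwise (s := (univ : Finset (Fin n)).powersetCard k)
          (f := fun A => ∑ v ∈ A, val (u v)) (t := (univ : Finset (ZMod l))) (fun A _ => by simp)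
        rw [Finset.card_powersetCard, card_univ, Fintype.card_fin] at e1
        rw [e1]; push_cast; rfl
      rw [Finset.sum_congr rfl (fun u _ => this u), Finset.sum_const, card_univ, nsmul_eq_mul, hcU]
    have b2 : ∑ p : Ω, ((G2 p).card : ℝ) ≤ l * ((n.choose k : ℝ) * (k * (eps J b l t * P ^ n))) := by
      have e1 : ∑ p : Ω, ((G2 p).card : ℝ) = ∑ s : ZMod l, ∑ u : Fin n → Lab J b l, ((G2 (u, s)).card : ℝ) := by
        rw [Fintype.sum_prod_type, Finset.sum_comm]
      rw [e1]
      have e2 : ∀ s : ZMod l, ∑ u : Fin n → Lab J b l, ((G2 (u, s)).card : ℝ)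
          ≤ (n.choose k : ℝ) * (k * (eps J b l t * P ^ n)) := by
        intro s
        have e3 : ∀ u : Fin n → Lab J b l, ((G2 (u, s)).card : ℝ)
            ≤ ∑ A ∈ (univ : Finset (Fin n)).powersetCard k, ∑ T ∈ A.powersetCard (k - 1),
              (if Bad (t := t) T u then (1 : ℝ) else 0) := by
          intro u
          have f1 : ((G2 (u, s)).card : ℝ) = ∑ A ∈ G2 (u, s), (1 : ℝ) := by
            rw [Finset.sum_const, nsmul_eq_mul, mul_one]
          rw [f1]
          refine le_trans (Finset.sum_le_sum (g := fun A => ∑ T ∈ A.powersetCard (k - 1),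
              (if Bad (t := t) T u then (1 : ℝ) else 0)) ?_)
            (Finset.sum_le_sum_of_subset_of_nonneg (Finset.filter_subset _ _)
              fun A _ _ => Finset.sum_nonneg fun T _ => by split_ifs <;> norm_num)
          intro A hA
          obtain ⟨T, hT, hTb⟩ := (mem_filter.mp hA).2
          calc (1 : ℝ) = if Bad (t := t) T u then (1 : ℝ) else 0 := by rw [if_pos hTb]
            _ ≤ _ := Finset.single_le_sum (f := fun T => if Bad (t := t) T u then (1 : ℝ) else 0)
              (fun T _ => by split_ifs <;> norm_num) hT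
        calc ∑ u : Fin n → Lab J b l, ((G2 (u, s)).card : ℝ)
            ≤ ∑ u : Fin n → Lab J b l, ∑ A ∈ (univ : Finset (Fin n)).powersetCard k,
              ∑ T ∈ A.powersetCard (k - 1), (if Bad (t := t) T u then (1 : ℝ) else 0) :=
              Finset.sum_le_sum fun u _ => e3 u
          _ = ∑ A ∈ (univ : Finset (Fin n)).powersetCard k, ∑ T ∈ A.powersetCard (k - 1),
              ∑ u : Fin n → Lab J b l, (if Bad (t := t) T u then (1 : ℝ) else 0) := by
              rw [Finset.sum_comm]
              refine Finset.sum_congr rfl fun A _ => ?_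
              rw [Finset.sum_comm]
          _ ≤ ∑ A ∈ (univ : Finset (Fin n)).powersetCard k, ∑ T ∈ A.powersetCard (k - 1),
              eps J b l t * P ^ n := by
              refine Finset.sum_le_sum fun A _ => Finset.sum_le_sum fun T hT => ?_
              rw [mem_powersetCard] at hT
              have := bad_count (t := t) hb hl T (by omega) (J := J)
              refine le_trans (le_of_eq ?_) this
              rw [Finset.card_filter]; push_cast; rfl
          _ = _ := by
              have : ∀ A ∈ (univ : Finset (Fin n)).powersetCard k, ∑ T ∈ A.powersetCard (k - 1),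
                  eps J b l t * P ^ n = k * (eps J b l t * P ^ n) := by
                intro A hA
                rw [mem_powersetCard] at hA
                rw [Finset.sum_const, Finset.card_powersetCard, hA.2, nsmul_eq_mul]
                obtain ⟨k', rfl⟩ : ∃ k', k = k' + 1 := ⟨k - 1, by omega⟩
                simp
              rw [Finset.sum_congr rfl this, Finset.sum_const, Finset.card_powersetCard, card_univ,
                Fintype.card_fin, nsmul_eq_mul]
      calc ∑ s : ZMod l, ∑ u : Fin n → Lab J b l, ((G2 (u, s)).card : ℝ)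
          ≤ ∑ s : ZMod l, (n.choose k : ℝ) * (k * (eps J b l t * P ^ n)) :=
            Finset.sum_le_sum fun s _ => e2 s
        _ = _ := by rw [Finset.sum_const, card_univ, ZMod.card, nsmul_eq_mul]
    have hne : (univ : Finset Ω).Nonempty := by
      have : Nonempty (Lab J b l) := ⟨(0, ⟨0, hb⟩, 0)⟩
      have : Nonempty Ω := inferInstance
      exact Finset.univ_nonempty
    obtain ⟨p, -, hp⟩ := Finset.exists_le_of_sum_le (s := (univ : Finset Ω))
      (f := fun p => ((G1 p).card : ℝ) + ((G2 p).card : ℝ))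
      (g := fun _ => (1 / (l : ℝ) + k * eps J b l t) * (n.choose k : ℝ)) hne (by
        rw [Finset.sum_add_distrib, Finset.sum_const, card_univ, nsmul_eq_mul]
        have hcP : (Fintype.card Ω : ℝ) = P ^ n * l := by
          have : Fintype.card Ω = Fintype.card (Fin n → Lab J b l) * l := by
            show Fintype.card ((Fin n → Lab J b l) × ZMod l) = _
            rw [Fintype.card_prod, ZMod.card]
          rw [this]; push_cast [hcU]; ring
        rw [hcP, b1]
        calc _ ≤ P ^ n * (n.choose k : ℝ) + l * ((n.choose k : ℝ) * (k * (eps J b l t * P ^ n))) := by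
              gcongr
          _ = _ := by field_simp)
    have hcov := ex_ge_of_cover (k := k) (i := i) (G1 p ∪ G2 p) (by
      intro S T hS hT hST
      by_cases hbad : Bad (t := t) T p.1
      · have hSne : S.Nonempty := by
          rw [← Finset.card_pos, hS]; omega
        obtain ⟨s0, hs0⟩ := hSne
        have hs0T : s0 ∉ T := fun h => Finset.disjoint_left.mp hST hs0 h
        have hc : (insert s0 T).card = k := by
          rw [Finset.card_insert_of_notMem hs0T, hT]; omega
        refine ⟨insert s0 T, ?_, hc, ?_, Or.inr (Finset.subset_insert _ _)⟩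
        · rw [mem_union]; right
          rw [mem_filter]
          exact ⟨mem_powersetCard.mpr ⟨subset_univ _, hc⟩, T,
            mem_powersetCard.mpr ⟨Finset.subset_insert _ _, hT⟩, hbad⟩
        · intro a ha
          rw [mem_insert] at ha
          rw [mem_union]
          rcases ha with rfl | ha
          · exact Or.inl hs0
          · exact Or.inr ha
      · unfold Bad at hbad
        push Not at hbad
        obtain ⟨e, he, heT, hrich⟩ := hbad
        obtain ⟨R, hR1, hR2⟩ := hrich (p.2 - ∑ v ∈ S, val (p.1 v))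
        have hd : Disjoint S (R.map ⟨e, he⟩) := by
          rw [Finset.disjoint_left]
          intro a ha hb'
          rw [mem_map] at hb'
          obtain ⟨x, -, rfl⟩ := hb'
          exact Finset.disjoint_left.mp hST ha (heT x)
        have hc : (S ∪ R.map ⟨e, he⟩).card = k := by
          rw [Finset.card_union_of_disjoint hd, Finset.card_map, hS, hR1]; omega
        refine ⟨S ∪ R.map ⟨e, he⟩, ?_, hc, ?_, Or.inl subset_union_left⟩
        · rw [mem_union]; left
          rw [mem_filter]
          refine ⟨mem_powersetCard.mpr ⟨subset_univ _, hc⟩, ?_⟩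
          rw [Finset.sum_union hd, Finset.sum_map]
          have : ∑ x ∈ R, val (p.1 ((⟨e, he⟩ : Fin t ⊕ Fin t ↪ Fin n) x)) = p.2 - ∑ v ∈ S, val (p.1 v) := hR2
          rw [this]; ring
        · intro a ha
          rw [mem_union] at ha ⊢
          rcases ha with ha | ha
          · exact Or.inl ha
          · right
            rw [mem_map] at ha
            obtain ⟨x, -, rfl⟩ := ha
            exact heT x)
    have h1 : (n.choose k : ℝ) ≤ ex n k i + (G1 p ∪ G2 p).card := by exact_mod_cast hcov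
    have h2 : ((G1 p ∪ G2 p).card : ℝ) ≤ (G1 p).card + (G2 p).card := by
      exact_mod_cast Finset.card_union_le _ _
    have h3 := h2.trans hp
    linarith
  linarith

theorem density_nonneg (k i : ℕ) : 0 ≤ turanDensity k i :=
  ge_of_tendsto' (ratio_tendsto k i) fun n => by positivity

/-- `1 - π(F_{k-j}) = O(log k / k^j)`, `j = J + 1`. -/
theorem co_upper (J : ℕ) : ∃ C : ℝ, 0 < C ∧ ∀ k : ℕ, J + 1 < k →
    1 - turanDensity k (k - (J + 1)) ≤ C * Real.log k / (k : ℝ) ^ (J + 1) := by
  obtain ⟨q, hq⟩ : ∃ q : ℝ, q = (J : ℝ) + 1 := ⟨_, rfl⟩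
  have hJ0 : (0 : ℝ) ≤ J := Nat.cast_nonneg _
  have hq1 : 1 ≤ q := by rw [hq]; linarith
  have hq0 : 0 < q := by linarith
  obtain ⟨lam, hlam⟩ : ∃ lam : ℝ, lam = (1 / (64 * q)) ^ J / (4 * q * (2 * J + 4)) := ⟨_, rfl⟩
  have hlam0 : 0 < lam := by rw [hlam]; positivity
  have hlam1 : lam ≤ 1 := by
    rw [hlam, div_le_one (by positivity)]
    have h1 : (1 / (64 * q)) ^ J ≤ 1 := by
      apply pow_le_one₀ (by positivity)
      rw [div_le_one (by positivity)]; linarith
    nlinarith
  obtain ⟨K₀, hK₀⟩ : ∃ K₀ : ℕ, K₀ = ⌈4 / lam ^ 2⌉₊ + 16 * (J + 1) + 16 := ⟨_, rfl⟩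
  obtain ⟨m, hm⟩ : ∃ m : ℕ, m = J + 3 := ⟨_, rfl⟩
  set C₁ : ℝ := 2 / lam + J * (m.factorial * (16 * q) ^ m) + 1 with hC₁
  have hC₁0 : 0 < C₁ := by positivity
  have hlog2 : 0 < Real.log 2 := Real.log_pos (by norm_num)
  set C₂ : ℝ := (K₀ : ℝ) ^ (J + 1) / Real.log 2 with hC₂
  have hC₂0 : 0 ≤ C₂ := by positivity
  refine ⟨C₁ + C₂, by positivity, fun k hk => ?_⟩
  have hk2 : (2 : ℝ) ≤ k := by exact_mod_cast (by omega : 2 ≤ k)
  have hk0 : (0 : ℝ) < k := by linarith
  have hlogk2 : Real.log 2 ≤ Real.log k := Real.log_le_log (by norm_num) hk2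
  have hlogk0 : 0 < Real.log k := by linarith
  have hpk : (0 : ℝ) < (k : ℝ) ^ (J + 1) := by positivity
  rcases Nat.lt_or_ge k K₀ with hkK | hkK
  · -- small `k`
    have h1 : 1 - turanDensity k (k - (J + 1)) ≤ 1 := by
      have := density_nonneg k (k - (J + 1)); linarith
    refine h1.trans ?_
    rw [le_div_iff₀ hpk, one_mul]
    have h2 : (k : ℝ) ^ (J + 1) ≤ (K₀ : ℝ) ^ (J + 1) := by
      apply pow_le_pow_left₀ hk0.le
      exact_mod_cast hkK.le
    have h3 : (K₀ : ℝ) ^ (J + 1) = C₂ * Real.log 2 := by rw [hC₂]; field_simp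
    calc (k : ℝ) ^ (J + 1) ≤ C₂ * Real.log 2 := by rw [← h3]; exact h2
      _ ≤ C₂ * Real.log k := by gcongr
      _ ≤ (C₁ + C₂) * Real.log k := by gcongr; linarith
  · -- large `k`
    obtain ⟨t, ht⟩ : ∃ t, t = (k - 1) / 2 := ⟨_, rfl⟩
    obtain ⟨b, hb⟩ : ∃ b, b = k / (16 * (J + 1)) := ⟨_, rfl⟩
    have hkbig : 16 * (J + 1) + 16 ≤ k := by omega
    have hb1 : 1 ≤ b := by
      rw [hb]; exact Nat.div_pos (by omega) (by omega)
    have hbq : 16 * (J + 1) * b ≤ k := by rw [hb]; exact Nat.mul_div_le _ _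
    have hbq2 : k < 16 * (J + 1) * (b + 1) := by
      rw [hb]; exact Nat.lt_mul_div_succ _ (by omega)
    have hbR1 : (b : ℝ) ≤ k / (16 * q) := by
      rw [le_div_iff₀ (by positivity), hq]
      have : ((16 * (J + 1) * b : ℕ) : ℝ) ≤ k := by exact_mod_cast hbq
      push_cast at this; linarith
    have hbR2 : (k : ℝ) / (32 * q) ≤ b := by
      rw [div_le_iff₀ (by positivity), hq]
      have h' : k ≤ 16 * (J + 1) * (2 * b) := by
        calc k ≤ 16 * (J + 1) * (b + 1) := hbq2.le
          _ ≤ 16 * (J + 1) * (2 * b) := Nat.mul_le_mul_left _ (by omega)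
      have : (k : ℝ) ≤ ((16 * (J + 1) * (2 * b) : ℕ) : ℝ) := by exact_mod_cast h'
      push_cast at this; linarith
    have htR : (k : ℝ) / 4 ≤ t := by
      have : k ≤ 4 * t := by omega
      have : (k : ℝ) ≤ 4 * t := by exact_mod_cast this
      linarith
    -- the modulus
    have hK4 : 4 / lam ^ 2 ≤ k := by
      have h1 := Nat.le_ceil (4 / lam ^ 2)
      have h2 : (⌈4 / lam ^ 2⌉₊ : ℝ) ≤ k := by exact_mod_cast (by omega : ⌈4 / lam ^ 2⌉₊ ≤ k)
      linarith
    have hs0 : 0 < Real.sqrt k := Real.sqrt_pos.mpr hk0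
    have hs2 : Real.sqrt k * Real.sqrt k = k := Real.mul_self_sqrt hk0.le
    have hlogs : Real.log k ≤ 2 * Real.sqrt k := by
      have h' := Real.log_le_sub_one_of_pos hs0
      have h'' : Real.log k = 2 * Real.log (Real.sqrt k) := by
        conv_lhs => rw [← hs2]
        rw [Real.log_mul hs0.ne' hs0.ne']; ring
      rw [h'']; linarith
    have hslam : 2 / lam ≤ Real.sqrt k := by
      apply Real.le_sqrt_of_sq_le
      rw [div_pow]; norm_num
      linarith
    have hlk : Real.log k ≤ lam * k := by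
      have : 2 ≤ lam * Real.sqrt k := by
        rw [div_le_iff₀ hlam0] at hslam; linarith
      calc Real.log k ≤ 2 * Real.sqrt k := hlogs
        _ ≤ (lam * Real.sqrt k) * Real.sqrt k := by gcongr
        _ = lam * k := by rw [mul_assoc, hs2]
    set y : ℝ := lam * (k : ℝ) ^ (J + 1) / Real.log k with hy
    have hyk : ((k ^ J : ℕ) : ℝ) ≤ y := by
      rw [hy, le_div_iff₀ hlogk0]
      push_cast
      calc (k : ℝ) ^ J * Real.log k ≤ (k : ℝ) ^ J * (lam * k) := by gcongr
        _ = lam * (k : ℝ) ^ (J + 1) := by rw [pow_succ]; ring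
    obtain ⟨l, hl⟩ : ∃ l, l = ⌊y⌋₊ := ⟨_, rfl⟩
    have hy0 : 0 < y := by positivity
    have hkl : k ^ J ≤ l := by rw [hl]; exact Nat.le_floor hyk
    have hl1 : 1 ≤ l := le_trans (Nat.one_le_pow _ _ (by omega)) hkl
    have hbl : b ^ J ≤ l := by
      refine le_trans (Nat.pow_le_pow_left ?_ J) hkl
      rw [hb]; exact Nat.div_le_self _ _
    have hly : (l : ℝ) ≤ y := by rw [hl]; exact Nat.floor_le hy0.le
    have hyl : y ≤ 2 * l := by
      have h1 : y < (l : ℝ) + 1 := by rw [hl]; exact Nat.lt_floor_add_one y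
      have h2 : (1 : ℝ) ≤ l := by exact_mod_cast hl1
      linarith
    have hlR0 : (0 : ℝ) < l := by
      have : (1 : ℝ) ≤ l := by exact_mod_cast hl1
      linarith
    have : NeZero l := ⟨by omega⟩
    have hup := upper_param J b l t k hb1 hbl (by omega) hk
    refine hup.trans ?_
    have hlogk1 : 1 ≤ Real.log k := by
      have h3 : (3 : ℝ) ≤ k := by exact_mod_cast (by omega : 3 ≤ k)
      have h4 : Real.exp 1 ≤ k := by
        have := Real.exp_one_lt_d9; linarith
      rw [← Real.log_exp 1]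
      exact Real.log_le_log (Real.exp_pos 1) h4
    -- first term
    have T0 : 1 / (l : ℝ) ≤ (2 / lam) * (Real.log k / (k : ℝ) ^ (J + 1)) := by
      have : 1 / (l : ℝ) ≤ 2 / y := by
        rw [div_le_div_iff₀ hlR0 hy0]; linarith
      refine this.trans (le_of_eq ?_)
      rw [hy]; field_simp
    -- the digits
    have T1 : (2 : ℝ) ^ b * (1 - 1 / (2 * ((J : ℝ) + 1))) ^ t ≤ m.factorial * (16 * q) ^ m / (k : ℝ) ^ m := by
      rw [← hq]
      have e1 : (2 : ℝ) ^ b ≤ Real.exp b := by
        have h2e : (2 : ℝ) ≤ Real.exp 1 := by have := Real.exp_one_gt_d9; linarith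
        calc (2 : ℝ) ^ b ≤ (Real.exp 1) ^ b := by gcongr
          _ = Real.exp b := by rw [← Real.exp_nat_mul, mul_one]
      have e2 : (1 - 1 / (2 * q)) ^ t ≤ Real.exp (-(t / (2 * q))) := by
        have h1 : 1 - 1 / (2 * q) ≤ Real.exp (-(1 / (2 * q))) := by
          have := Real.add_one_le_exp (-(1 / (2 * q))); linarith
        have h0 : 0 ≤ 1 - 1 / (2 * q) := by
          rw [sub_nonneg, div_le_one (by positivity)]; linarith
        calc (1 - 1 / (2 * q)) ^ t ≤ (Real.exp (-(1 / (2 * q)))) ^ t := pow_le_pow_left₀ h0 h1 t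
          _ = Real.exp (-(t / (2 * q))) := by
              rw [← Real.exp_nat_mul]; congr 1; ring
      have h0 : 0 ≤ (1 - 1 / (2 * q)) ^ t := by
        apply pow_nonneg
        rw [sub_nonneg, div_le_one (by positivity)]; linarith
      have e3 : (2 : ℝ) ^ b * (1 - 1 / (2 * q)) ^ t ≤ Real.exp (-(k / (16 * q))) := by
        calc (2 : ℝ) ^ b * (1 - 1 / (2 * q)) ^ t ≤ Real.exp b * Real.exp (-(t / (2 * q))) := by
              gcongr
          _ = Real.exp (b - t / (2 * q)) := by rw [← Real.exp_add]; congr 1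
          _ ≤ Real.exp (-(k / (16 * q))) := by
              apply Real.exp_le_exp.mpr
              have h5 : (k : ℝ) / (8 * q) ≤ t / (2 * q) := by
                rw [div_le_div_iff₀ (by positivity) (by positivity)]
                nlinarith
              have h6 : (k : ℝ) / (8 * q) = 2 * (k / (16 * q)) := by field_simp; norm_num
              linarith
      refine e3.trans ?_
      have hx0 : 0 < (k : ℝ) / (16 * q) := by positivity
      have e4 := Real.pow_div_factorial_le_exp (k / (16 * q)) hx0.le m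
      rw [Real.exp_neg, inv_eq_one_div]
      have hfac : (0 : ℝ) < m.factorial := by exact_mod_cast Nat.factorial_pos m
      have e5 : (0 : ℝ) < (k / (16 * q)) ^ m / m.factorial := by positivity
      calc 1 / Real.exp (k / (16 * q)) ≤ 1 / ((k / (16 * q)) ^ m / m.factorial) :=
            one_div_le_one_div_of_le e5 e4
        _ = m.factorial * (16 * q) ^ m / (k : ℝ) ^ m := by
            rw [div_pow]; field_simp
    -- the last type
    have T2 : (l : ℝ) * (1 - ((b : ℝ) / 2) ^ J / (((J : ℝ) + 1) * l)) ^ t ≤ 1 / (k : ℝ) ^ (J + 3) := by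
      rw [← hq]
      obtain ⟨x, hx⟩ : ∃ x : ℝ, x = ((b : ℝ) / 2) ^ J / (q * l) := ⟨_, rfl⟩
      rw [← hx]
      have hbR0 : (0 : ℝ) ≤ b := Nat.cast_nonneg _
      have hx0 : 0 ≤ x := by rw [hx]; positivity
      have hx1 : 0 ≤ 1 - x := by
        rw [sub_nonneg, hx, div_le_one (by positivity)]
        have h1 : ((b : ℝ)) ^ J ≤ l := by exact_mod_cast hbl
        calc ((b : ℝ) / 2) ^ J ≤ (b : ℝ) ^ J := by gcongr; linarith
          _ ≤ l := h1
          _ ≤ q * l := by nlinarith
      have hxt : (2 * J + 4) * Real.log k ≤ t * x := by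
        have h1 : (1 / (64 * q)) ^ J * (k : ℝ) ^ J ≤ ((b : ℝ) / 2) ^ J := by
          rw [← mul_pow]
          apply pow_le_pow_left₀ (by positivity)
          have : 1 / (64 * q) * (k : ℝ) = (k / (32 * q)) / 2 := by field_simp; norm_num
          rw [this]; linarith
        have h2 : Real.log k / (lam * (k : ℝ) ^ (J + 1)) ≤ 1 / l := by
          rw [div_le_div_iff₀ (by positivity) hlR0, one_mul]
          rw [hy, le_div_iff₀ hlogk0] at hly
          linarith
        have h3 : (2 * J + 4) * Real.log k = (k / 4) * (((1 / (64 * q)) ^ J * (k : ℝ) ^ J) / q *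
            (Real.log k / (lam * (k : ℝ) ^ (J + 1)))) := by
          have h4 : (1 / (64 * q)) ^ J = lam * (4 * q * (2 * J + 4)) := by
            rw [hlam]; field_simp
          rw [h4, pow_succ]; field_simp
        rw [h3]
        have h5 : x = ((b : ℝ) / 2) ^ J / q * (1 / l) := by rw [hx]; field_simp
        rw [h5]
        gcongr
      have e1 : (1 - x) ^ t ≤ 1 / (k : ℝ) ^ (2 * J + 4) := by
        have h1 : 1 - x ≤ Real.exp (-x) := by
          have := Real.add_one_le_exp (-x); linarith
        calc (1 - x) ^ t ≤ (Real.exp (-x)) ^ t := pow_le_pow_left₀ hx1 h1 t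
          _ = Real.exp (-(t * x)) := by rw [← Real.exp_nat_mul]; congr 1; ring
          _ ≤ Real.exp (-((2 * J + 4) * Real.log k)) := by
              apply Real.exp_le_exp.mpr; linarith
          _ = 1 / (k : ℝ) ^ (2 * J + 4) := by
              have h2 : ((2 * J + 4) * Real.log k) = ((2 * J + 4 : ℕ) : ℝ) * Real.log k := by push_cast; ring
              rw [Real.exp_neg, h2, Real.exp_nat_mul, Real.exp_log hk0, inv_eq_one_div]
      have e2 : (l : ℝ) ≤ (k : ℝ) ^ (J + 1) := by
        refine hly.trans ?_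
        rw [hy, div_le_iff₀ hlogk0]
        calc lam * (k : ℝ) ^ (J + 1) ≤ 1 * (k : ℝ) ^ (J + 1) := by gcongr
          _ = (k : ℝ) ^ (J + 1) * 1 := by ring
          _ ≤ (k : ℝ) ^ (J + 1) * Real.log k := by gcongr
      calc (l : ℝ) * (1 - x) ^ t ≤ (k : ℝ) ^ (J + 1) * (1 / (k : ℝ) ^ (2 * J + 4)) := by
            gcongr
        _ = 1 / (k : ℝ) ^ (J + 3) := by
            rw [mul_one_div, div_eq_div_iff (by positivity) (by positivity), one_mul, ← pow_add]
            congr 1; ring
    -- sum up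
    have hL : (1 : ℝ) / (k : ℝ) ^ (J + 1) ≤ Real.log k / (k : ℝ) ^ (J + 1) := by gcongr
    have hk3 : (k : ℝ) * (1 / (k : ℝ) ^ (J + 3)) ≤ Real.log k / (k : ℝ) ^ (J + 1) := by
      refine le_trans ?_ hL
      rw [mul_one_div, div_le_div_iff₀ (by positivity) hpk, one_mul]
      calc (k : ℝ) * (k : ℝ) ^ (J + 1) = (k : ℝ) ^ (J + 2) := by rw [pow_succ _ (J + 1)]; ring
        _ ≤ (k : ℝ) ^ (J + 3) := pow_le_pow_right₀ (by linarith) (by omega)
    have T1' : (k : ℝ) * (J * ((2 : ℝ) ^ b * (1 - 1 / (2 * ((J : ℝ) + 1))) ^ t))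
        ≤ (J * (m.factorial * (16 * q) ^ m)) * (Real.log k / (k : ℝ) ^ (J + 1)) := by
      calc (k : ℝ) * (J * ((2 : ℝ) ^ b * (1 - 1 / (2 * ((J : ℝ) + 1))) ^ t))
          ≤ (k : ℝ) * (J * (m.factorial * (16 * q) ^ m / (k : ℝ) ^ m)) := by gcongr
        _ = (J * (m.factorial * (16 * q) ^ m)) * ((k : ℝ) * (1 / (k : ℝ) ^ (J + 3))) := by
            rw [hm]; ring
        _ ≤ _ := by gcongr
    have T2' : (k : ℝ) * (l * (1 - ((b : ℝ) / 2) ^ J / (((J : ℝ) + 1) * l)) ^ t)
        ≤ 1 * (Real.log k / (k : ℝ) ^ (J + 1)) := by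
      rw [one_mul]
      refine le_trans ?_ hk3
      gcongr
    have hfin : 1 / (l : ℝ) + k * eps J b l t ≤ C₁ * (Real.log k / (k : ℝ) ^ (J + 1)) := by
      rw [eps, mul_add, hC₁]
      have : (2 / lam + J * (m.factorial * (16 * q) ^ m) + 1) * (Real.log k / (k : ℝ) ^ (J + 1))
        = (2 / lam) * (Real.log k / (k : ℝ) ^ (J + 1))
          + (J * (m.factorial * (16 * q) ^ m)) * (Real.log k / (k : ℝ) ^ (J + 1))
          + 1 * (Real.log k / (k : ℝ) ^ (J + 1)) := by ring
      rw [this]
      linarith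
    refine hfin.trans ?_
    rw [mul_div_assoc]
    gcongr
    linarith

end Pool.Agent.MP7badbe
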