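import Mathlib

/-!
# The Turán problem for the `k`-graphs `F_i`

Definitions: the `k`-graph `F_i` (`FGraph k i`), containment of a copy, the extremal number
`ex n k i` and the Turán density `turanDensity k i`.
-/

open Finset

namespace Pool.Agent.MP7badbe

/-- The `k`-graph `F_i` on the vertex set `S ∪ T`, `S = Fin i` and `T = Fin (k-1)`: all `k`-sets
that contain `S` or contain `T`. -/
def FGraph (k i : ℕ) : Finset (Finset (Fin i ⊕ Fin (k - 1))) :=
  univ.filter (fun A => A.card = k ∧ ((∀ s : Fin i, Sum.inl s ∈ A) ∨ (∀ t : Fin (k - 1), Sum.inr t ∈ A)))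

/-- `H` contains a copy of `F` as a (not necessarily induced) subgraph. -/
def Contains {V : Type} {n : ℕ} (H : Finset (Finset (Fin n))) (F : Finset (Finset V)) : Prop :=
  ∃ f : V ↪ Fin n, ∀ A ∈ F, A.map f ∈ H

open Classical in
/-- `ex n k i` is the largest number of edges of a `k`-graph on `n` vertices that contains no copy
of `F_i`. -/
noncomputable def ex (n k i : ℕ) : ℕ :=
  ((((univ : Finset (Fin n)).powersetCard k).powerset).filter
    (fun H => ¬ Contains H (FGraph k i))).sup Finset.card

/-- The Turán density of `F_i`: the limit of `ex n k i / C(n,k)`. -/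
noncomputable def turanDensity (k i : ℕ) : ℝ :=
  Filter.limUnder Filter.atTop (fun n : ℕ => (ex n k i : ℝ) / (n.choose k : ℝ))

end Pool.Agent.MP7badbe
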